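import Pool.Agent.Helper69.Str.Cut

/-!
# Arms of a represented set
-/

namespace Pool.Agent.Helper69.Str

variable {s : ℝ} {T : Finset P} {x y : P → ℤ}

lemma exists_bound (F : P → ℤ) (T : Finset P) : ∃ B : ℤ, ∀ p ∈ T, -B < F p ∧ F p < B := by
  classical
  induction T using Finset.induction_on with
  | empty => exact ⟨0, by simp⟩
  | insert a T ha ih =>
    obtain ⟨B, hB⟩ := ih
    refine ⟨max B (|F a| + 1), fun p hp => ?_⟩
    rcases Finset.mem_insert.1 hp with rfl | hp
    · have h1 := neg_abs_le (F p)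
      have h2 := le_abs_self (F p)
      have h3 := le_max_right B (|F p| + 1)
      constructor <;> omega
    · have := hB p hp
      have h3 := le_max_left B (|F a| + 1)
      constructor <;> omega

/-- Left arm points are extreme. -/
lemma ext_of_LA (h : Rep s T x y) {z : P} (hz : z ∈ T) (hLA : ∀ p ∈ T, y p < y z → x z < x p) :
    Ext z T := by
  classical
  obtain ⟨B1, hB1⟩ := exists_bound x T
  obtain ⟨B2, hB2⟩ := exists_bound y T
  set B := max B1 B2 with hB
  have hb1 : B1 ≤ B := le_max_left _ _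
  have hb2 : B2 ≤ B := le_max_right _ _
  set ξ : P → ℤ := fun p => if y p < y z then x p - 2 * B else if x z < x p then y p else
    2 * B - y p with hξ
  have ξ1 : ∀ p, y p < y z → ξ p = x p - 2 * B := fun p h1 => by simp only [hξ]; rw [if_pos h1]
  have ξ2 : ∀ p, ¬ y p < y z → x z < x p → ξ p = y p := fun p h1 h2 => by
    simp only [hξ]; rw [if_neg h1, if_pos h2]
  have ξ3 : ∀ p, ¬ y p < y z → ¬ x z < x p → ξ p = 2 * B - y p := fun p h1 h2 => by
    simp only [hξ]; rw [if_neg h1, if_neg h2]
  refine ext_of_order (s := s) ξ ?_ ?_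
  · intro a ha b hb haz hbz e
    have A1 := hB1 a ha
    have A2 := hB2 a ha
    have A3 := hB1 b hb
    have A4 := hB2 b hb
    by_cases a1 : y a < y z
    · rw [ξ1 a a1] at e
      by_cases b1 : y b < y z
      · rw [ξ1 b b1] at e
        exact h.xinj a ha b hb (by omega)
      · by_cases b2 : x z < x b
        · rw [ξ2 b b1 b2] at e; omega
        · rw [ξ3 b b1 b2] at e; omega
    · by_cases a2 : x z < x a
      · rw [ξ2 a a1 a2] at e
        by_cases b1 : y b < y z
        · rw [ξ1 b b1] at e; omega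
        · by_cases b2 : x z < x b
          · rw [ξ2 b b1 b2] at e
            exact h.yinj a ha b hb e
          · rw [ξ3 b b1 b2] at e; omega
      · rw [ξ3 a a1 a2] at e
        by_cases b1 : y b < y z
        · rw [ξ1 b b1] at e; omega
        · by_cases b2 : x z < x b
          · rw [ξ2 b b1 b2] at e; omega
          · rw [ξ3 b b1 b2] at e
            exact h.yinj a ha b hb (by omega)
  · intro a ha b hb haz hbz e
    have A1 := hB1 a ha
    have A2 := hB2 a ha
    have A3 := hB1 b hb
    have A4 := hB2 b hb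
    have ya := h.yne ha hz haz
    have yb := h.yne hb hz hbz
    have xa := h.xne ha hz haz
    have xb := h.xne hb hz hbz
    have r1 : D s a b z = D s z a b := D_rot s z a b
    have r2 : D s a b z = D s b z a := (D_rot s a b z).symm
    by_cases a1 : y a < y z
    · rw [ξ1 a a1] at e
      by_cases b1 : y b < y z
      · rw [ξ1 b b1] at e
        exact h.pos a ha b hb z hz a1 b1 (by omega)
      · rw [r1]
        exact h.pos z hz a ha b hb (by omega) (by omega) (hLA a ha a1)
    · by_cases a2 : x z < x a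
      · rw [ξ2 a a1 a2] at e
        by_cases b1 : y b < y z
        · rw [ξ1 b b1] at e; omega
        · by_cases b2 : x z < x b
          · rw [ξ2 b b1 b2] at e
            rw [r1]
            exact h.pos z hz a ha b hb (by omega) (by omega) a2
          · have hab : a ≠ b := by rintro rfl; exact b2 a2
            have yab := h.yne ha hb hab
            rcases lt_or_gt_of_ne yab with h1 | h1
            · rw [r1]
              exact h.pos z hz a ha b hb (by omega) (by omega) a2
            · rw [r2]
              exact h.pos b hb z hz a ha (by omega) (by omega) (by omega)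
      · rw [ξ3 a a1 a2] at e
        by_cases b1 : y b < y z
        · rw [ξ1 b b1] at e; omega
        · by_cases b2 : x z < x b
          · rw [ξ2 b b1 b2] at e; omega
          · rw [ξ3 b b1 b2] at e
            rw [r2]
            exact h.pos b hb z hz a ha (by omega) (by omega) (by omega)

lemma ext_of_RA (h : Rep s T x y) {z : P} (hz : z ∈ T) (hRA : ∀ p ∈ T, y p < y z → x p < x z) :
    Ext z T :=
  ext_of_LA h.mirror hz fun p hp hy => by
    have := hRA p hp hy
    show - x z < - x p
    omega

lemma ext_top (h : Rep s T x y) {q : P} (hq : Top y T q) : Ext q T :=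
  ext_of_order (s := s) x (fun a ha b hb _ _ => h.xinj a ha b hb)
    fun a ha b hb haq hbq hx => h.pos a ha b hb q hq.1 (hq.2 a ha haq) (hq.2 b hb hbq) hx

/-- A point that is not extreme has a lower point on the left. -/
lemma exists_lower_left (h : Rep s T x y) {z : P} (hz : z ∈ T) (hext : ¬ Ext z T) :
    ∃ a ∈ T, y a < y z ∧ x a < x z := by
  by_contra hcon
  push Not at hcon
  apply hext
  refine ext_of_LA h hz fun p hp hy => ?_
  have h1 := hcon p hp hy
  have h2 : p ≠ z := by rintro rfl; omega
  have := h.xne hp hz h2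
  omega

lemma exists_lower_right (h : Rep s T x y) {z : P} (hz : z ∈ T) (hext : ¬ Ext z T) :
    ∃ a ∈ T, y a < y z ∧ x z < x a := by
  obtain ⟨a, ha, h1, h2⟩ := exists_lower_left h.mirror hz hext
  exact ⟨a, ha, h1, by
    have h3 : - x a < - x z := h2
    omega⟩

/-- The lower left point can be taken extreme. -/
lemma exists_ext_left (h : Rep s T x y) {z a : P} (ha : a ∈ T) (h1 : y a < y z)
    (h2 : x a < x z) : ∃ u ∈ T, y u < y z ∧ x u < x z ∧ Ext u T := by
  classical
  obtain ⟨u, hu, hmin⟩ := (T.filter fun p => x p < x z).exists_min_image y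
    ⟨a, by simp [ha, h2]⟩
  rw [Finset.mem_filter] at hu
  have h3 := hmin a (by simp [ha, h2])
  refine ⟨u, hu.1, by omega, hu.2, ext_of_LA h hu.1 fun p hp hy => ?_⟩
  by_contra hcon
  have h4 := hmin p (by
    simp only [Finset.mem_filter]
    exact ⟨hp, by omega⟩)
  omega

lemma exists_ext_right (h : Rep s T x y) {z a : P} (ha : a ∈ T) (h1 : y a < y z)
    (h2 : x z < x a) : ∃ u ∈ T, y u < y z ∧ x z < x u ∧ Ext u T := by
  obtain ⟨u, hu, h3, h4, h5⟩ := exists_ext_left (z := z) h.mirror ha h1
    (by show - x a < - x z; omega)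
  exact ⟨u, hu, h3, by
    have h6 : - x u < - x z := h4
    omega, h5⟩

/-- Extreme points other than the top are on an arm. -/
lemma arm_of_ext (h : Rep s T x y) {q z : P} (hq : Top y T q) (hz : z ∈ T) (hzq : z ≠ q)
    (hext : Ext z T) :
    (∀ p ∈ T, y p < y z → x p < x z) ∨ (∀ p ∈ T, y p < y z → x z < x p) := by
  by_contra hcon
  push Not at hcon
  obtain ⟨⟨c, hc, hyc, hxc⟩, ⟨a, ha, hya, hxa⟩⟩ := hcon
  have hcz : c ≠ z := by rintro rfl; omega
  have haz : a ≠ z := by rintro rfl; omega
  have hxc' := h.xne hc hz hcz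
  have hxa' := h.xne ha hz haz
  have hyq := hq.2 z hz hzq
  refine not_ext_of_triangle (s := s) ha hc hq.1 ?_ ?_ ?_ hext
  · exact h.pos a ha c hc z hz hya hyc (by omega)
  · rw [D_rot s z c q]
    exact h.pos z hz c hc q hq.1 hyq (by omega) (by omega)
  · rw [D_rot' s a z q]
    exact h.pos a ha z hz q hq.1 (by omega) hyq (by omega)

/-- If `z` cuts a hull edge then it does so together with an extreme point. -/
lemma cut_ext_right {z u v w q : P} (h : Rep s T x y) (hq : Top y T q) (hE : HE s v w T)
    (hR : RT T x y v w)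
    (hz : z ∈ T) (hu : u ∈ T) (hzv : z ≠ v) (hzw : z ≠ w) (huv : u ≠ v) (huw : u ≠ w)
    (huz : u ≠ z) (hc : CutBy s z u v w) :
    ∃ u' ∈ T, Ext u' T ∧ u' ≠ v ∧ u' ≠ w ∧ u' ≠ z ∧ CutBy s z u' v w := by
  have hv := hE.hv
  have hw := hE.hw
  rcases cut_right h hE hR hz hu hzv hzw huv huw huz hc with ⟨h1, h2, h3, h4, h5⟩ |
    ⟨h1, h2, h3, h4⟩
  · obtain ⟨u', hu', k1, k2, k3⟩ := exists_ext_left h hu h3 h4
    refine ⟨u', hu', k3, ?_, ?_, ?_, ?_, ?_⟩
    · rintro rfl; omega
    · rintro rfl; omega
    · rintro rfl; omega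
    · rw [D_rot' s u' z w]
      exact h.pos u' hu' z hz w hw (by omega) h2 k2
    · exact h.pos u' hu' v hv z hz k1 h1 (by omega)
  · have hzq : z ≠ q := by
      rintro rfl
      have := hq.2 u hu huz
      omega
    have hyzq := hq.2 z hz hzq
    have := hR.1
    refine ⟨q, hq.1, ext_top h hq, ?_, ?_, hzq.symm, ?_, ?_⟩
    · rintro rfl; omega
    · rintro rfl; omega
    · rw [D_rot s z w q]
      exact h.pos z hz w hw q hq.1 hyzq (by omega) h2
    · rw [D_rot' s v z q]
      exact h.pos v hv z hz q hq.1 (by omega) hyzq h1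

lemma cut_ext {z u v w q : P} (h : Rep s T x y) (hq : Top y T q) (hE : HE s v w T)
    (hz : z ∈ T) (hu : u ∈ T) (hzv : z ≠ v) (hzw : z ≠ w) (huv : u ≠ v) (huw : u ≠ w)
    (huz : u ≠ z) (hc : CutBy s z u v w) :
    ∃ u' ∈ T, Ext u' T ∧ u' ≠ v ∧ u' ≠ w ∧ u' ≠ z ∧ CutBy s z u' v w := by
  rcases hE.type h with hR | hL
  · exact cut_ext_right h hq hE hR hz hu hzv hzw huv huw huz hc
  · obtain ⟨u', h1, h2, h3, h4, h5, h6⟩ := cut_ext_right h.mirror hq hE.mirror hL.mirror hz hu
      hzw hzv huw huv huz hc.mirror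
    refine ⟨u', h1, h2, h4, h3, h5, ?_⟩
    have := h6.mirror
    rwa [neg_neg] at this

end Pool.Agent.Helper69.Str
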