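import Mathlib

/-!
# Orientations of point triples
-/

namespace Pool.Agent.Helper69.Str

/-- Points of the plane. -/
abbrev P := ℝ × ℝ

/-- The orientation determinant of three points. -/
def det (a b c : P) : ℝ := (b.1 - a.1) * (c.2 - a.2) - (b.2 - a.2) * (c.1 - a.1)

/-- Signed version. -/
def D (s : ℝ) (a b c : P) : ℝ := s * det a b c

lemma D_rot (s : ℝ) (a b c : P) : D s b c a = D s a b c := by
  unfold D det; ring

lemma D_rot' (s : ℝ) (a b c : P) : D s c a b = D s a b c := by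
  unfold D det; ring

lemma D_swap (s : ℝ) (a b c : P) : D s b a c = - D s a b c := by
  unfold D det; ring

lemma D_swap' (s : ℝ) (a b c : P) : D s a c b = - D s a b c := by
  unfold D det; ring

lemma D_swap'' (s : ℝ) (a b c : P) : D s c b a = - D s a b c := by
  unfold D det; ring

lemma D_self₁ (s : ℝ) (a c : P) : D s a a c = 0 := by unfold D det; ring

lemma D_self₂ (s : ℝ) (a c : P) : D s a c c = 0 := by unfold D det; ring

lemma D_self₃ (s : ℝ) (a c : P) : D s a c a = 0 := by unfold D det; ring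

/-- General position. -/
def GP (S : Finset P) : Prop :=
  ∀ a ∈ S, ∀ b ∈ S, ∀ c ∈ S, a ≠ b → a ≠ c → b ≠ c → det a b c ≠ 0

lemma GP.mono {S T : Finset P} (h : GP S) (hT : T ⊆ S) : GP T :=
  fun a ha b hb c hc => h a (hT ha) b (hT hb) c (hT hc)

lemma GP.D_ne {S : Finset P} (h : GP S) {s : ℝ} (hs : s ≠ 0) {a b c : P} (ha : a ∈ S)
    (hb : b ∈ S) (hc : c ∈ S) (hab : a ≠ b) (hac : a ≠ c) (hbc : b ≠ c) : D s a b c ≠ 0 :=
  mul_ne_zero hs (h a ha b hb c hc hab hac hbc)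

/-- A representation of `S` by two orders. -/
structure Rep (s : ℝ) (S : Finset P) (x y : P → ℤ) : Prop where
  xinj : ∀ a ∈ S, ∀ b ∈ S, x a = x b → a = b
  yinj : ∀ a ∈ S, ∀ b ∈ S, y a = y b → a = b
  pos : ∀ a ∈ S, ∀ b ∈ S, ∀ c ∈ S, y a < y c → y b < y c → x a < x b → 0 < D s a b c

namespace Rep

variable {s : ℝ} {S : Finset P} {x y : P → ℤ}

lemma neg (h : Rep s S x y) {a b c : P} (ha : a ∈ S) (hb : b ∈ S) (hc : c ∈ S)
    (h1 : y a < y c) (h2 : y b < y c) (h3 : x b < x a) : D s a b c < 0 := by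
  have := h.pos b hb a ha c hc h2 h1 h3
  rw [D_swap] at this
  linarith

lemma mono {T : Finset P} (h : Rep s S x y) (hT : T ⊆ S) : Rep s T x y :=
  ⟨fun a ha b hb => h.xinj a (hT ha) b (hT hb), fun a ha b hb => h.yinj a (hT ha) b (hT hb),
    fun a ha b hb c hc => h.pos a (hT ha) b (hT hb) c (hT hc)⟩

lemma xne (h : Rep s S x y) {a b : P} (ha : a ∈ S) (hb : b ∈ S) (hab : a ≠ b) : x a ≠ x b :=
  fun e => hab (h.xinj a ha b hb e)

lemma yne (h : Rep s S x y) {a b : P} (ha : a ∈ S) (hb : b ∈ S) (hab : a ≠ b) : y a ≠ y b :=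
  fun e => hab (h.yinj a ha b hb e)

lemma mirror (h : Rep s S x y) : Rep (-s) S (fun p => - x p) y := by
  refine ⟨fun a ha b hb e => h.xinj a ha b hb (by simpa using e), h.yinj, ?_⟩
  intro a ha b hb c hc h1 h2 h3
  have := h.neg ha hb hc h1 h2 (by simpa using h3)
  unfold D at this ⊢
  linarith

lemma lt_iff (h : Rep s S x y) {a b c : P} (ha : a ∈ S) (hb : b ∈ S) (hc : c ∈ S) (hab : a ≠ b)
    (h1 : y a < y c) (h2 : y b < y c) : 0 < D s a b c ↔ x a < x b := by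
  constructor
  · intro hD
    by_contra hx
    have hx' : x b < x a := lt_of_le_of_ne (not_lt.1 hx) (h.xne hb ha hab.symm)
    have := h.neg ha hb hc h1 h2 hx'
    linarith
  · exact h.pos a ha b hb c hc h1 h2

lemma gt_iff (h : Rep s S x y) {a b c : P} (ha : a ∈ S) (hb : b ∈ S) (hc : c ∈ S) (hab : a ≠ b)
    (h1 : y a < y c) (h2 : y b < y c) : D s a b c < 0 ↔ x b < x a := by
  constructor
  · intro hD
    by_contra hx
    have hx' : x a < x b := lt_of_le_of_ne (not_lt.1 hx) (h.xne ha hb hab)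
    have := h.pos a ha b hb c hc h1 h2 hx'
    linarith
  · exact h.neg ha hb hc h1 h2

end Rep

/-- Some representation. -/
def HasRep (s : ℝ) (S : Finset P) : Prop := ∃ x y : P → ℤ, Rep s S x y

lemma HasRep.mono {s : ℝ} {S T : Finset P} (h : HasRep s S) (hT : T ⊆ S) : HasRep s T := by
  obtain ⟨x, y, h⟩ := h
  exact ⟨x, y, h.mono hT⟩

lemma HasRep.mirror {s : ℝ} {S : Finset P} (h : HasRep s S) : HasRep (-s) S := by
  obtain ⟨x, y, h⟩ := h
  exact ⟨_, _, h.mirror⟩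

/-- `y` has its maximum on `S` at `q` only. -/
def Top (y : P → ℤ) (S : Finset P) (q : P) : Prop := q ∈ S ∧ ∀ p ∈ S, p ≠ q → y p < y q

lemma Rep.exists_top {s : ℝ} {S : Finset P} {x y : P → ℤ} (h : Rep s S x y) (hS : S.Nonempty) :
    ∃ q, Top y S q := by
  obtain ⟨q, hq, hmax⟩ := S.exists_max_image y hS
  exact ⟨q, hq, fun p hp hpq => lt_of_le_of_ne (hmax p hp) (h.yne hp hq hpq)⟩

/-- `q` is an extreme point of `S`. -/
def Ext (q : P) (S : Finset P) : Prop :=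
  ∃ G : ℝ × ℝ, ∀ p ∈ S, p ≠ q → 0 < G.1 * (p.1 - q.1) + G.2 * (p.2 - q.2)

lemma Ext.mono {q : P} {S T : Finset P} (h : Ext q S) (hT : T ⊆ S) : Ext q T := by
  obtain ⟨G, h⟩ := h
  exact ⟨G, fun p hp => h p (hT hp)⟩

/-- Radial order around an extreme point. -/
lemma Ext.order {q : P} {S : Finset P} (h : Ext q S) (s : ℝ) :
    ∃ X : P → ℝ, ∀ a ∈ S, ∀ b ∈ S, a ≠ q → b ≠ q → (0 < D s a b q ↔ X a < X b) := by
  obtain ⟨G, h⟩ := h
  refine ⟨fun p => s * (-G.2 * (p.1 - q.1) + G.1 * (p.2 - q.2)) /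
    (G.1 * (p.1 - q.1) + G.2 * (p.2 - q.2)), ?_⟩
  intro a ha b hb haq hbq
  have ha' := h a ha haq
  have hb' := h b hb hbq
  rw [div_lt_div_iff₀ ha' hb', ← sub_pos (b := s * _ * _)]
  have hG : 0 < G.1 ^ 2 + G.2 ^ 2 := by
    by_contra hcon
    have h1 : G.1 = 0 := by nlinarith [sq_nonneg G.1, sq_nonneg G.2]
    have h2 : G.2 = 0 := by nlinarith [sq_nonneg G.1, sq_nonneg G.2]
    rw [h1, h2] at ha'
    simp at ha'
  have key : s * (-G.2 * (b.1 - q.1) + G.1 * (b.2 - q.2)) * (G.1 * (a.1 - q.1) + G.2 * (a.2 - q.2)) -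
      s * (-G.2 * (a.1 - q.1) + G.1 * (a.2 - q.2)) * (G.1 * (b.1 - q.1) + G.2 * (b.2 - q.2)) =
      (G.1 ^ 2 + G.2 ^ 2) * D s a b q := by
    unfold D det; ring
  rw [key]
  constructor
  · intro h; positivity
  · intro h; exact (pos_iff_pos_of_mul_pos h).1 hG

/-- Rank function. -/
noncomputable def rk (X : P → ℝ) (S : Finset P) (p : P) : ℤ := ((S.filter fun r => X r < X p).card : ℤ)

lemma rk_lt {X : P → ℝ} {S : Finset P} {a b : P} (ha : a ∈ S) (hab : X a < X b) :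
    rk X S a < rk X S b := by
  unfold rk
  rw [Nat.cast_lt]
  apply Finset.card_lt_card
  rw [Finset.ssubset_iff_of_subset]
  · refine ⟨a, ?_, ?_⟩
    · simp [ha, hab]
    · simp
  · intro r hr
    simp only [Finset.mem_filter] at hr ⊢
    exact ⟨hr.1, hr.2.trans hab⟩

lemma rk_lt_iff {X : P → ℝ} {S : Finset P} {a b : P} (ha : a ∈ S) (hb : b ∈ S) :
    rk X S a < rk X S b ↔ X a < X b := by
  refine ⟨fun h => ?_, rk_lt ha⟩
  by_contra hcon
  rcases lt_or_eq_of_le (not_lt.1 hcon) with h' | h'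
  · exact absurd (rk_lt hb h') (not_lt.2 h.le)
  · unfold rk at h; rw [h'] at h; exact lt_irrefl _ h

end Pool.Agent.Helper69.Str
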