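import Pool.Agent.Helper69.Str.Hull

/-!
# In a minimal set without representation every hull edge is blocked
-/

namespace Pool.Agent.Helper69.Str

lemma tri_contra {s : ℝ} {v w a b c : P} (h1 : 0 < D s a b w) (h2 : 0 < D s b c w)
    (h3 : 0 < D s c a w) (k1 : 0 < D s v w a) (k2 : 0 < D s v w b) (k3 : 0 < D s v w c) :
    False := by
  have key : D s b c w * D s v w a + D s c a w * D s v w b + D s a b w * D s v w c = 0 := by
    unfold D det; ring
  have e1 := mul_pos h2 k1
  have e2 := mul_pos h3 k2
  have e3 := mul_pos h1 k3
  linarith

/-- If no line through two other points separates the ends of the hull edge `v w`, then a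
representation of `S` without `v` extends to `S`. -/
lemma hasRep_of_twin {s : ℝ} {S : Finset P} {v w : P} (hE : HE s v w S)
    (htwin : ∀ a ∈ S, ∀ b ∈ S, a ≠ b → a ≠ v → a ≠ w → b ≠ v → b ≠ w →
      0 < D s a b w → 0 < D s a b v)
    (h : HasRep s (S.erase v)) : HasRep s S := by
  classical
  obtain ⟨x, y, h⟩ := h
  have mem : ∀ {p}, p ∈ S → p ≠ v → p ∈ S.erase v := fun hp hpv => Finset.mem_erase.2 ⟨hpv, hp⟩
  have hwT : w ∈ S.erase v := mem hE.hw hE.ne.symm
  obtain ⟨q, hqT, hq⟩ := h.exists_top ⟨w, hwT⟩
  have hHE := hE.pos
  by_cases hqw : q = w
  · subst hqw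
    obtain ⟨B, hB⟩ : ∃ B : ℤ, ∀ p ∈ S, B < x p := by
      obtain ⟨m, -, hm⟩ := S.exists_min_image x ⟨q, hE.hw⟩
      refine ⟨x m - 1, fun p hp => ?_⟩
      have := hm p hp
      omega
    set x' : P → ℤ := fun p => if p = v then B - 1 else if p = q then B else x p with hx'
    set y' : P → ℤ := fun p => if p = v then y q + 1 else y p with hy'
    have xv : x' v = B - 1 := by simp [hx']
    have xq : x' q = B := by simp [hx', hE.ne.symm]
    have xp : ∀ p, p ≠ v → p ≠ q → x' p = x p := fun p h1 h2 => by simp [hx', h1, h2]
    have yv : y' v = y q + 1 := by simp [hy']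
    have yp : ∀ p, p ≠ v → y' p = y p := fun p h1 => by simp [hy', h1]
    have ylt : ∀ p ∈ S, p ≠ v → p ≠ q → y p < y q := fun p hp h1 h2 => hq p (mem hp h1) h2
    refine ⟨x', y', ?_, ?_, ?_⟩
    · intro a ha b hb e
      by_contra hne
      by_cases hav : a = v <;> by_cases hbv : b = v <;> by_cases haq : a = q <;>
        by_cases hbq : b = q <;> (try subst hav) <;> (try subst hbv) <;> (try subst haq) <;>
        (try subst hbq) <;> (try exact hne rfl) <;> (try exact absurd rfl hE.ne) <;>
        (try rw [xv] at e) <;> (try rw [xq] at e) <;> (try rw [xp _ ‹_› ‹_›] at e) <;>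
        (try rw [xp _ ‹_› ‹_›] at e)
      all_goals try (have := hB _ ha; omega)
      all_goals try (have := hB _ hb; omega)
      all_goals try omega
      exact hne (h.xinj a (mem ha hav) b (mem hb hbv) e)
    · intro a ha b hb e
      by_contra hne
      by_cases hav : a = v
      · subst hav
        have hbv : b ≠ a := Ne.symm hne
        rw [yv, yp b hbv] at e
        by_cases hbq : b = q
        · subst hbq; omega
        · have := ylt b hb hbv hbq; omega
      · by_cases hbv : b = v
        · subst hbv
          rw [yv, yp a hav] at e
          by_cases haq : a = q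
          · subst haq; omega
          · have := ylt a ha hav haq; omega
        · rw [yp a hav, yp b hbv] at e
          exact hne (h.yinj a (mem ha hav) b (mem hb hbv) e)
    · intro a ha b hb c hc h1 h2 h3
      have ylq : ∀ p ∈ S, p ≠ v → y' p ≤ y q := fun p hp hpv => by
        rw [yp p hpv]
        by_cases hpq : p = q
        · subst hpq; exact le_rfl
        · exact (ylt p hp hpv hpq).le
      have hxlow : ∀ p ∈ S, B - 1 ≤ x' p := fun p hp => by
        by_cases hpv : p = v
        · subst hpv; rw [xv]
        · by_cases hpq : p = q
          · subst hpq; rw [xq]; omega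
          · rw [xp p hpv hpq]; have := hB p hp; omega
      have hbv : b ≠ v := by
        rintro rfl
        have := hxlow a ha
        rw [xv] at h3
        omega
      have hav : a ≠ v := by
        rintro rfl
        rw [yv] at h1
        by_cases hcv : c = a
        · subst hcv; rw [yv] at h1; omega
        · have := ylq c hc hcv; omega
      have hbq : b ≠ q := by
        rintro rfl
        rw [xq] at h3
        by_cases haq : a = b
        · subst haq; rw [xq] at h3; omega
        · rw [xp a hav haq] at h3; have := hB a ha; omega
      rw [xp b hbv hbq] at h3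
      rw [yp a hav] at h1
      rw [yp b hbv] at h2
      by_cases haq : a = q
      · subst haq
        have hcv : c = v := by
          by_contra hcv
          have := ylq c hc hcv
          omega
        subst hcv
        rw [← D_rot' s a b c]
        exact hHE b hb hbv hbq
      · rw [xp a hav haq] at h3
        have hab : a ≠ b := by rintro rfl; omega
        by_cases hcv : c = v
        · subst hcv
          exact htwin a ha b hb hab hav haq hbv hbq
            (h.pos a (mem ha hav) b (mem hb hbv) q hwT (ylt a ha hav haq) (ylt b hb hbv hbq) h3)
        · rw [yp c hcv] at h1 h2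
          exact h.pos a (mem ha hav) b (mem hb hbv) c (mem hc hcv) h1 h2 h3
  · -- `w` is on an arm
    have hyw : y w < y q := hq w hwT (Ne.symm hqw)
    have hqv : q ≠ v := (Finset.mem_erase.1 hqT).1
    have hqS : q ∈ S := (Finset.mem_erase.1 hqT).2
    have arm : (∀ p ∈ S.erase v, y p < y w → x p < x w) ∨
        (∀ p ∈ S.erase v, y p < y w → x w < x p) := by
      by_contra hcon
      push Not at hcon
      obtain ⟨⟨c, hc, hyc, hxc⟩, ⟨a, ha, hya, hxa⟩⟩ := hcon
      have hcw : c ≠ w := by rintro rfl; omega
      have haw : a ≠ w := by rintro rfl; omega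
      have hxc' : x w < x c := lt_of_le_of_ne hxc (h.xne hwT hc hcw.symm)
      have hxa' : x a < x w := lt_of_le_of_ne hxa (h.xne ha hwT haw)
      have t1 : 0 < D s a c w := h.pos a ha c hc w hwT hya hyc (hxa'.trans hxc')
      have t2 : 0 < D s c q w := by
        rw [D_rot s w c q]; exact h.pos w hwT c hc q hqT hyw (hyc.trans hyw) hxc'
      have t3 : 0 < D s q a w := by
        rw [← D_rot s q a w]
        exact h.pos a ha w hwT q hqT (hya.trans hyw) hyw hxa'
      have m := fun (p : P) (hp : p ∈ S.erase v) (hpw : p ≠ w) =>
        hHE p (Finset.mem_erase.1 hp).2 (Finset.mem_erase.1 hp).1 hpw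
      exact tri_contra t1 t2 t3 (m a ha haw) (m c hc hcw) (m q hqT hqw)
    have tw : ∀ a ∈ S, ∀ b ∈ S, a ≠ b → a ≠ v → a ≠ w → b ≠ v → b ≠ w →
      0 < D s w a b → 0 < D s v a b := by
      intro a ha b hb hab h1 h2 h3 h4 h5
      rw [← D_rot] at h5 ⊢
      exact htwin a ha b hb hab h1 h2 h3 h4 h5
    have tw' : ∀ a ∈ S, ∀ b ∈ S, a ≠ b → a ≠ v → a ≠ w → b ≠ v → b ≠ w →
      0 < D s a w b → 0 < D s a v b := by
      intro a ha b hb hab h1 h2 h3 h4 h5
      rw [← D_rot'] at h5 ⊢
      exact htwin b hb a ha hab.symm h3 h4 h1 h2 h5
    have main : ∀ t : ℤ, (t = -1 ∧ ∀ p ∈ S.erase v, y p < y w → x p < x w) ∨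
        (t = 1 ∧ ∀ p ∈ S.erase v, y p < y w → x w < x p) → HasRep s S := by
      intro t ht
      set x' : P → ℤ := fun p => if p = v then 2 * x w - 1 else 2 * x p with hx'
      set y' : P → ℤ := fun p => if p = v then 2 * y w + t else 2 * y p with hy'
      have xv : x' v = 2 * x w - 1 := by simp [hx']
      have xp : ∀ p, p ≠ v → x' p = 2 * x p := fun p h1 => by simp [hx', h1]
      have yv : y' v = 2 * y w + t := by simp [hy']
      have yp : ∀ p, p ≠ v → y' p = 2 * y p := fun p h1 => by simp [hy', h1]
      have ht' : t = -1 ∨ t = 1 := by rcases ht with h | h <;> simp [h.1]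
      refine ⟨x', y', ?_, ?_, ?_⟩
      · intro a ha b hb e
        by_contra hne
        by_cases hav : a = v
        · subst hav
          rw [xv, xp b (Ne.symm hne)] at e
          omega
        · by_cases hbv : b = v
          · subst hbv
            rw [xv, xp a hne] at e
            omega
          · rw [xp a hav, xp b hbv] at e
            exact hne (h.xinj a (mem ha hav) b (mem hb hbv) (by omega))
      · intro a ha b hb e
        by_contra hne
        by_cases hav : a = v
        · subst hav
          rw [yv, yp b (Ne.symm hne)] at e
          omega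
        · by_cases hbv : b = v
          · subst hbv
            rw [yv, yp a hne] at e
            omega
          · rw [yp a hav, yp b hbv] at e
            exact hne (h.yinj a (mem ha hav) b (mem hb hbv) (by omega))
      · intro a ha b hb c hc h1 h2 h3
        have hab : a ≠ b := by rintro rfl; omega
        have hac : a ≠ c := by rintro rfl; omega
        have hbc : b ≠ c := by rintro rfl; omega
        by_cases hcv : c = v
        · subst hcv
          rw [yv, yp a hac] at h1
          rw [yv, yp b hbc] at h2
          rw [xp a hac, xp b hbc] at h3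
          by_cases haw : a = w
          · subst haw
            rw [← D_rot' s a b c]
            exact hHE b hb hbc hab.symm
          by_cases hbw : b = w
          · subst hbw
            rcases ht with ⟨rfl, ht⟩ | ⟨rfl, ht⟩
            · omega
            · have := h.yne (mem ha hac) hwT haw
              have := ht a (mem ha hac) (by omega)
              omega
          have e1 := h.yne (mem ha hac) hwT haw
          have e2 := h.yne (mem hb hbc) hwT hbw
          exact htwin a ha b hb hab hac haw hbc hbw
            (h.pos a (mem ha hac) b (mem hb hbc) w hwT (by omega) (by omega) (by omega))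
        · rw [yp c hcv] at h1 h2
          by_cases hav : a = v
          · subst hav
            rw [yv] at h1
            rw [yp b hab.symm] at h2
            rw [xv, xp b hab.symm] at h3
            by_cases hbw : b = w
            · subst hbw
              exact hHE c hc hcv hbc.symm
            · have hcw : c ≠ w := by
                rintro rfl
                rcases ht with ⟨rfl, ht⟩ | ⟨rfl, ht⟩
                · have := ht b (mem hb hab.symm) (by omega)
                  omega
                · omega
              have e1 := h.yne (mem hc hcv) hwT hcw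
              have e2 := h.xne (mem hb hab.symm) hwT hbw
              exact tw b hb c hc hbc hab.symm hbw hcv hcw
                (h.pos w hwT b (mem hb hab.symm) c (mem hc hcv) (by omega) (by omega) (by omega))
          · rw [yp a hav] at h1
            rw [xp a hav] at h3
            by_cases hbv : b = v
            · subst hbv
              rw [yv] at h2
              rw [xv] at h3
              have haw : a ≠ w := by rintro rfl; omega
              by_cases hcw : c = w
              · subst hcw
                rw [D_rot' s b c a]
                exact hHE a ha hav haw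
              · have e1 := h.yne (mem hc hcv) hwT hcw
                exact tw' a ha c hc hac hav haw hcv hcw
                  (h.pos a (mem ha hav) w hwT c (mem hc hcv) (by omega) (by omega) (by omega))
            · rw [yp b hbv] at h2
              rw [xp b hbv] at h3
              exact h.pos a (mem ha hav) b (mem hb hbv) c (mem hc hcv) (by omega) (by omega)
                (by omega)
    rcases arm with harm | harm
    · exact main (-1) (Or.inl ⟨rfl, harm⟩)
    · exact main 1 (Or.inr ⟨rfl, harm⟩)

/-- Hull edges of a minimal set without representation are blocked. -/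
lemma blocked {s : ℝ} (hs : s = 1 ∨ s = -1) {S : Finset P} {v w : P} (hE : HE s v w S)
    (hgp : GP S) (h : HasRep s (S.erase v)) (hno : ¬ HasRep s S) :
    ∃ a ∈ S, ∃ b ∈ S, a ≠ b ∧ a ≠ v ∧ a ≠ w ∧ b ≠ v ∧ b ≠ w ∧ D s a b w * D s a b v < 0 := by
  by_contra hcon
  push Not at hcon
  apply hno
  refine hasRep_of_twin hE (fun a ha b hb hab h1 h2 h3 h4 h5 => ?_) h
  have hs0 : s ≠ 0 := by rcases hs with rfl | rfl <;> norm_num
  have h6 := hcon a ha b hb hab h1 h2 h3 h4
  have h7 := hgp.D_ne hs0 ha hb hE.hv hab h1 h3
  rcases lt_or_gt_of_ne h7 with h8 | h8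
  · nlinarith
  · exact h8

end Pool.Agent.Helper69.Str
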