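import Pool.Agent.Helper69.Str.Rules
import Pool.Agent.Helper69.Str.Twin

/-!
# Minimal sets without representation are bounded
-/

namespace Pool.Agent.Helper69.Str

variable {s : ℝ} {S : Finset P}

/-- Minimal sets without representation, in general position. -/
structure Obst (s : ℝ) (S : Finset P) : Prop where
  hs : s = 1 ∨ s = -1
  gp : GP S
  no : ¬ HasRep s S
  min : ∀ p ∈ S, HasRep s (S.erase p)

lemma Obst.mirror (h : Obst s S) : Obst (-s) S where
  hs := by rcases h.hs with rfl | rfl <;> simp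
  gp := h.gp
  no := fun h' => h.no (by simpa using h'.mirror)
  min := fun p hp => (h.min p hp).mirror

/-- `z` cuts the hull edge `v w`. -/
def CutA (s : ℝ) (S : Finset P) (z v w : P) : Prop :=
  HE s v w S ∧ z ∈ S ∧ z ≠ v ∧ z ≠ w ∧ ∃ u ∈ S, u ≠ v ∧ u ≠ w ∧ u ≠ z ∧ CutBy s z u v w

lemma CutA.not_ext {z v w : P} (h : CutA s S z v w) : ¬ Ext z S := by
  obtain ⟨hE, hz, h1, h2, u, hu, -, -, -, hc⟩ := h
  exact hc.not_ext hE hz hu h1 h2

lemma exists_not_mem {F G : Finset P} (h : F.card < G.card) : ∃ p ∈ G, p ∉ F := by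
  by_contra hcon
  push Not at hcon
  exact absurd (Finset.card_le_card (fun p hp => hcon p hp)) (not_le.2 h)

/-- Every hull edge is cut. -/
lemma Obst.exists_cutA (h : Obst s S) (hcard : 5 ≤ S.card) {v w : P} (hE : HE s v w S) :
    ∃ z, CutA s S z v w := by
  classical
  obtain ⟨a, ha, b, hb, hab, hav, haw, hbv, hbw, hsep⟩ :=
    blocked h.hs hE h.gp (h.min v hE.hv) h.no
  obtain ⟨p, hp, hpF⟩ := exists_not_mem (F := {v, w, a, b}) (G := S)
    (lt_of_le_of_lt Finset.card_le_four (by omega))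
  simp only [Finset.mem_insert, Finset.mem_singleton, not_or] at hpF
  obtain ⟨x, y, hR⟩ := h.min p hp
  have mem : ∀ {r}, r ∈ S → p ≠ r → r ∈ S.erase p := fun hr hne =>
    Finset.mem_erase.2 ⟨hne.symm, hr⟩
  have hE' : HE s v w (S.erase p) := hE.mono (Finset.erase_subset _ _) (mem hE.hv hpF.1)
    (mem hE.hw hpF.2.1)
  rcases cutter hR hE' (mem ha hpF.2.2.1) (mem hb hpF.2.2.2) hav haw hbv hbw hab hsep with h1 | h1
  · exact ⟨b, hE, hb, hbv, hbw, a, ha, hav, haw, hab, h1⟩
  · exact ⟨a, hE, ha, hav, haw, b, hb, hbv, hbw, hab.symm, h1⟩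

/-- A point cuts at most three hull edges. -/
lemma Obst.cut_le_three (h : Obst s S) (hcard : 14 ≤ S.card) {z : P} (f : Fin 4 → P × P)
    (hf : Function.Injective f) (hc : ∀ i, CutA s S z (f i).1 (f i).2) : False := by
  classical
  choose hE hz hzv hzw u hu huv huw huz hcut using hc
  set B : Finset P := {z} ∪ (Finset.univ.image u ∪ (Finset.univ.image (fun i => (f i).1) ∪
    Finset.univ.image (fun i => (f i).2))) with hB
  have hBcard : B.card ≤ 13 := by
    refine (Finset.card_union_le _ _).trans ?_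
    have e1 : (Finset.univ.image u).card ≤ 4 := Finset.card_image_le.trans (by simp)
    have e2 : (Finset.univ.image (fun i : Fin 4 => (f i).1)).card ≤ 4 :=
      Finset.card_image_le.trans (by simp)
    have e3 : (Finset.univ.image (fun i : Fin 4 => (f i).2)).card ≤ 4 :=
      Finset.card_image_le.trans (by simp)
    have e4 := Finset.card_union_le (Finset.univ.image (fun i : Fin 4 => (f i).1))
      (Finset.univ.image (fun i => (f i).2))
    have e5 := Finset.card_union_le (Finset.univ.image u)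
      (Finset.univ.image (fun i : Fin 4 => (f i).1) ∪ Finset.univ.image (fun i => (f i).2))
    have e6 : ({z} : Finset P).card = 1 := Finset.card_singleton z
    omega
  obtain ⟨p, hp, hpB⟩ := exists_not_mem (F := B) (G := S) (by omega)
  obtain ⟨x, y, hR⟩ := h.min p hp
  have mem : ∀ {r}, r ∈ S → r ∈ B → r ∈ S.erase p := fun hr hrB =>
    Finset.mem_erase.2 ⟨fun e => hpB (e ▸ hrB), hr⟩
  have zB : z ∈ B := by simp [hB]
  have uB : ∀ i, u i ∈ B := fun i => by simp [hB]
  have vB : ∀ i, (f i).1 ∈ B := fun i => by simp [hB]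
  have wB : ∀ i, (f i).2 ∈ B := fun i => by simp [hB]
  have hE' : ∀ i, HE s (f i).1 (f i).2 (S.erase p) := fun i =>
    (hE i).mono (Finset.erase_subset _ _) (mem (hE i).hv (vB i)) (mem (hE i).hw (wB i))
  have hz' : z ∈ S.erase p := mem (hz 0) zB
  have types : ∀ i, ∃ t : Fin 3,
      (t = 0 → RT (S.erase p) x y (f i).1 (f i).2 ∧ y (f i).1 < y z ∧ y z < y (f i).2) ∧
      (t = 1 → LT (S.erase p) x y (f i).1 (f i).2 ∧ y (f i).2 < y z ∧ y z < y (f i).1) ∧
      (t = 2 → x (f i).1 < x z ∧ x z < x (f i).2) := by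
    intro i
    have hu' := mem (hu i) (uB i)
    rcases (hE' i).type hR with hr | hl
    · rcases cut_right hR (hE' i) hr hz' hu' (hzv i) (hzw i) (huv i) (huw i) (huz i) (hcut i) with
        h1 | h1
      · exact ⟨0, fun _ => ⟨hr, h1.1, h1.2.1⟩, fun e => absurd e (by decide),
          fun e => absurd e (by decide)⟩
      · exact ⟨2, fun e => absurd e (by decide), fun e => absurd e (by decide),
          fun _ => ⟨h1.1, h1.2.1⟩⟩
    · rcases cut_left hR (hE' i) hl hz' hu' (hzv i) (hzw i) (huv i) (huw i) (huz i) (hcut i) with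
        h1 | h1
      · exact ⟨1, fun e => absurd e (by decide), fun _ => ⟨hl, h1.1, h1.2.1⟩,
          fun e => absurd e (by decide)⟩
      · exact ⟨2, fun e => absurd e (by decide), fun e => absurd e (by decide),
          fun _ => ⟨h1.1, h1.2.1⟩⟩
  choose τ hτ using types
  obtain ⟨i, j, hij, hτij⟩ := Fintype.exists_ne_map_eq_of_card_lt τ (by simp)
  apply hij
  apply hf
  obtain ⟨a0, a1, a2⟩ := hτ i
  obtain ⟨b0, b1, b2⟩ := hτ j
  rw [← hτij] at b0 b1 b2
  have hcases : τ i = 0 ∨ τ i = 1 ∨ τ i = 2 := by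
    generalize τ i = t
    revert t
    decide
  rcases hcases with ht | ht | ht
  · obtain ⟨k1, k2, k3⟩ := a0 ht
    obtain ⟨l1, l2, l3⟩ := b0 ht
    exact Prod.ext_iff.2 (rt_unique (hE' i) (hE' j) k1 l1 k2 k3 l2 l3 hR)
  · obtain ⟨k1, k2, k3⟩ := a1 ht
    obtain ⟨l1, l2, l3⟩ := b1 ht
    exact Prod.ext_iff.2 (lt_unique (hE' i) (hE' j) k1 l1 k2 k3 l2 l3 hR)
  · obtain ⟨k1, k2⟩ := a2 ht
    obtain ⟨l1, l2⟩ := b2 ht
    exact Prod.ext_iff.2 (col_unique (hE' i) (hE' j) k1 k2 l1 l2 hR)

open Classical in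
/-- The inner points. -/
noncomputable def inner (S : Finset P) : Finset P := S.filter fun p => ¬ Ext p S

lemma mem_inner {p : P} : p ∈ inner S ↔ p ∈ S ∧ ¬ Ext p S := by
  unfold inner
  simp

/-- Each cut can be made with an extreme point. -/
lemma Obst.cut_ext (h : Obst s S) (hcard : 5 ≤ (inner S).card) {z v w : P}
    (hc : CutA s S z v w) :
    ∃ u ∈ S, Ext u S ∧ u ≠ v ∧ u ≠ w ∧ u ≠ z ∧ CutBy s z u v w := by
  classical
  obtain ⟨hE, hz, h1, h2, u, hu, h3, h4, h5, hcut⟩ := hc
  obtain ⟨p, hp, hpF⟩ := exists_not_mem (F := {v, w, z, u}) (G := inner S)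
    (lt_of_le_of_lt Finset.card_le_four (by omega))
  simp only [Finset.mem_insert, Finset.mem_singleton, not_or] at hpF
  rw [mem_inner] at hp
  obtain ⟨x, y, hR⟩ := h.min p hp.1
  have mem : ∀ {r}, r ∈ S → p ≠ r → r ∈ S.erase p := fun hr hne =>
    Finset.mem_erase.2 ⟨hne.symm, hr⟩
  have hE' : HE s v w (S.erase p) := hE.mono (Finset.erase_subset _ _) (mem hE.hv hpF.1)
    (mem hE.hw hpF.2.1)
  obtain ⟨q, hq⟩ := hR.exists_top ⟨v, hE'.hv⟩
  obtain ⟨u', hu', k1, k2, k3, k4, k5⟩ := Str.cut_ext hR hq hE' (mem hz hpF.2.2.1)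
    (mem hu hpF.2.2.2) h1 h2 h3 h4 h5 hcut
  have hu'' := Finset.mem_erase.1 hu'
  exact ⟨u', hu''.2, ext_of_erase hu''.2 hp.1 hu''.1 k1 hp.2, k2, k3, k4, k5⟩

/-- Some removal order. -/
def Start (q : P) (U : Finset P) : Prop := ∃ η, StartOn q U η

lemma not_stuck_of_start {q : P} {U R : Finset P} (h : Start q U) (hR : R ⊆ U) (hqR : q ∉ R) :
    ¬ Stuck q R := by
  rintro ⟨hne, hst⟩
  obtain ⟨η, hη⟩ := h
  obtain ⟨t, ht, hmax⟩ := R.exists_max_image η hne
  obtain ⟨a, ha, b, hb, hat, hbt, hsep⟩ := hst t ht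
  have hnq : ∀ {p}, p ∈ R → p ≠ q := fun hp e => hqR (e ▸ hp)
  have := hη.first (hR ha) (hR hb) (hR ht) (hnq ha) (hnq hb) (hnq ht) hat hbt hsep
  have h1 := hmax a ha
  have h2 := hmax b hb
  omega

open Classical in
/-- The extreme points from which `S` can be removed after dropping one inner point. -/
noncomputable def starts (S : Finset P) : Finset P :=
  S.filter fun q => Ext q S ∧ ∃ p ∈ inner S, Start q (S.erase p)

lemma mem_starts {q : P} : q ∈ starts S ↔ q ∈ S ∧ Ext q S ∧ ∃ p ∈ inner S, Start q (S.erase p) := by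
  unfold starts
  simp

lemma Obst.exists_start (h : Obst s S) (hcard : 2 ≤ S.card) {p : P} (hp : p ∈ inner S) :
    ∃ q ∈ starts S, Start q (S.erase p) := by
  classical
  rw [mem_inner] at hp
  obtain ⟨x, y, hR⟩ := h.min p hp.1
  obtain ⟨q, hq⟩ := hR.exists_top (by
    rw [← Finset.card_pos, Finset.card_erase_of_mem hp.1]; omega)
  have hq' := Finset.mem_erase.1 hq.1
  have hst : Start q (S.erase p) := ⟨y, startOn_of_rep h.hs hR hq⟩
  refine ⟨q, ?_, hst⟩
  rw [mem_starts]
  exact ⟨hq'.2, ext_of_erase hq'.2 hp.1 hq'.1 (ext_top hR hq) hp.2, p, mem_inner.2 hp, hst⟩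

/-- The number of inner points is at most six times the number of starting points. -/
lemma Obst.inner_le (h : Obst s S) (hcard : 2 ≤ S.card) :
    (inner S).card ≤ 6 * (starts S).card := by
  classical
  have hR : ∀ q : P, ∃ R : Finset P, R.card ≤ 6 ∧ (q ∈ starts S → R ⊆ S.erase q ∧ Stuck q R) := by
    intro q
    by_cases hq : q ∈ starts S
    · have hq' := mem_starts.1 hq
      have hst : ∃ R ⊆ S.erase q, Stuck q R := by
        by_contra hcon
        push Not at hcon
        exact h.no (hasRep_of_not_stuck h.hs hq'.1 h.gp hq'.2.1 hcon)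
      obtain ⟨R, hR, hst⟩ := hst
      have hqR : q ∉ R := fun hh => (Finset.mem_erase.1 (hR hh)).1 rfl
      have hsub : insert q R ⊆ S := by
        intro p hp
        rcases Finset.mem_insert.1 hp with rfl | hp
        · exact hq'.1
        · exact Finset.mem_of_mem_erase (hR hp)
      obtain ⟨R', hR', h6, hst'⟩ := stuck_small (h.gp.mono hsub) hqR (hq'.2.1.mono hsub) hst
      exact ⟨R', h6, fun _ => ⟨hR'.trans hR, hst'⟩⟩
    · exact ⟨∅, by simp, fun hh => absurd hh hq⟩
  choose R hR6 hRq using hR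
  have hsub : inner S ⊆ (starts S).biUnion R := by
    intro p hp
    obtain ⟨q, hq, hst⟩ := h.exists_start hcard hp
    rw [Finset.mem_biUnion]
    refine ⟨q, hq, ?_⟩
    by_contra hpR
    obtain ⟨h1, h2⟩ := hRq q hq
    refine not_stuck_of_start hst (R := R q) ?_ ?_ h2
    · intro r hr
      exact Finset.mem_erase.2 ⟨fun e => hpR (e ▸ hr), Finset.mem_of_mem_erase (h1 hr)⟩
    · exact fun hh => (Finset.mem_erase.1 (h1 hh)).1 rfl
  calc (inner S).card ≤ ((starts S).biUnion R).card := Finset.card_le_card hsub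
    _ ≤ (starts S).card * 6 := Finset.card_biUnion_le_card_mul _ _ _ fun q _ => hR6 q
    _ = 6 * (starts S).card := by ring

/-- The number of extreme points is at most three times the number of inner points. -/
lemma Obst.card_le (h : Obst s S) (hcard : 14 ≤ S.card) : S.card ≤ 4 * (inner S).card := by
  classical
  by_contra hcon
  push Not at hcon
  set E : Finset P := S.filter fun p => Ext p S with hEdef
  have hsum : E.card + (inner S).card = S.card := by
    unfold inner
    convert Finset.card_filter_add_card_filter_not (s := S) (fun p => Ext p S) using 2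
  have hch : ∀ v : P, ∃ wz : P × P, v ∈ E → CutA s S wz.2 v wz.1 := by
    intro v
    by_cases hv : v ∈ E
    · rw [hEdef, Finset.mem_filter] at hv
      obtain ⟨w, hw⟩ := hv.2.exists_HE h.hs hv.1 h.gp (by omega)
      obtain ⟨z, hz⟩ := h.exists_cutA (by omega) hw
      exact ⟨(w, z), fun _ => hz⟩
    · exact ⟨(v, v), fun hh => absurd hh hv⟩
  choose F hF using hch
  have hmap : ∀ v ∈ E, (F v).2 ∈ inner S := fun v hv =>
    mem_inner.2 ⟨(hF v hv).2.1, (hF v hv).not_ext⟩
  obtain ⟨z, -, hz⟩ := Finset.exists_lt_card_fiber_of_mul_lt_card_of_maps_to hmap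
    (n := 3) (by omega)
  have h4 : 4 ≤ (E.filter fun v => (F v).2 = z).card := hz
  obtain ⟨g⟩ : Nonempty (Fin 4 ↪ (E.filter fun v => (F v).2 = z)) :=
    Function.Embedding.nonempty_of_card_le (by simpa using h4)
  have hg : ∀ i, (g i : P) ∈ E ∧ (F (g i)).2 = z := fun i => by
    have := (g i).2
    rwa [Finset.mem_filter] at this
  refine h.cut_le_three hcard (z := z) (fun i => ((g i : P), (F (g i)).1)) ?_ ?_
  · intro i j hij
    have := congrArg Prod.fst hij
    exact g.injective (Subtype.ext this)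
  · intro i
    have := hF (g i) (hg i).1
    rwa [(hg i).2] at this

end Pool.Agent.Helper69.Str
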