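import Pool.Agent.Helper69.Str.Hull

/-!
# Inner points and the hull edges they cut
-/

namespace Pool.Agent.Helper69.Str

variable {s : ℝ} {T : Finset P} {x y : P → ℤ}

/-- The hull edge `v w` belongs to the right arm (or ends in the top point). -/
def RT (T : Finset P) (x y : P → ℤ) (v w : P) : Prop :=
  y v < y w ∧ ∀ p ∈ T, p ≠ v → p ≠ w → y p < y w → x p < x v

/-- The hull edge `v w` belongs to the left arm (or starts in the top point). -/
def LT (T : Finset P) (x y : P → ℤ) (v w : P) : Prop :=
  y w < y v ∧ ∀ p ∈ T, p ≠ v → p ≠ w → y p < y v → x w < x p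

lemma HE.type {v w : P} (hE : HE s v w T) (h : Rep s T x y) : RT T x y v w ∨ LT T x y v w := by
  rcases lt_or_gt_of_ne (h.yne hE.hv hE.hw hE.ne) with h1 | h1
  · refine Or.inl ⟨h1, fun p hp hpv hpw hpy => ?_⟩
    have h2 := hE.pos p hp hpv hpw
    rw [D_swap'] at h2
    have h3 : D s v p w < 0 := by linarith
    exact (h.gt_iff hE.hv hp hE.hw (Ne.symm hpv) h1 hpy).1 h3
  · refine Or.inr ⟨h1, fun p hp hpv hpw hpy => ?_⟩
    have h2 := hE.pos p hp hpv hpw
    rw [← D_rot s v w p] at h2
    exact (h.lt_iff hE.hw hp hE.hv (Ne.symm hpw) h1 hpy).1 h2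

/-- `z` lies in the triangle `u v w` (for a hull edge `v w`). -/
def CutBy (s : ℝ) (z u v w : P) : Prop := 0 < D s w u z ∧ 0 < D s u v z

lemma HE.mirror {v w : P} (h : HE s v w T) : HE (-s) w v T :=
  ⟨h.hw, h.hv, h.ne.symm, fun p hp h1 h2 => by
    have := h.pos p hp h2 h1
    rw [D_swap] at this
    unfold D at this ⊢
    linarith⟩

lemma CutBy.mirror {z u v w : P} (h : CutBy s z u v w) : CutBy (-s) z u w v := by
  obtain ⟨h1, h2⟩ := h
  rw [D_swap] at h1 h2
  unfold CutBy
  unfold D at h1 h2 ⊢
  constructor <;> linarith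

lemma LT.mirror {v w : P} (h : LT T x y v w) : RT T (fun p => - x p) y w v := by
  refine ⟨h.1, fun p hp h1 h2 h3 => ?_⟩
  have := h.2 p hp h2 h1 h3
  show - x p < - x w
  omega

/-- Position of a cutting point, right arm. -/
lemma cut_right {z u v w : P} (h : Rep s T x y) (hE : HE s v w T) (hR : RT T x y v w)
    (hz : z ∈ T) (hu : u ∈ T) (hzv : z ≠ v) (hzw : z ≠ w) (huv : u ≠ v) (huw : u ≠ w)
    (huz : u ≠ z) (hc : CutBy s z u v w) :
    (y v < y z ∧ y z < y w ∧ y u < y z ∧ x u < x z ∧ x z < x v) ∨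
    (x v < x z ∧ x z < x w ∧ y w < y z ∧ y z < y u) := by
  obtain ⟨c1, c2⟩ := hc
  obtain ⟨hvw, harm⟩ := hR
  have hv := hE.hv
  have hw := hE.hw
  have e1 : D s w u z = D s u z w := D_rot' s u z w
  have e2 : D s u v z = D s z u v := D_rot s z u v
  have e3 : D s u v z = D s v z u := D_rot' s v z u
  have e4 : D s w u z = D s z w u := D_rot s z w u
  have hyzv := h.yne hz hv hzv
  have hyzw := h.yne hz hw hzw
  have hyuv := h.yne hu hv huv
  have hyuz := h.yne hu hz huz
  have hyuw := h.yne hu hw huw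
  rcases lt_or_gt_of_ne hyzv with h1 | h1
  · -- below `v`
    exfalso
    have hxz := harm z hz hzv hzw (h1.trans hvw)
    rcases lt_or_gt_of_ne hyuv with h2 | h2
    · have k1 := (h.lt_iff hz hu hv (Ne.symm huz) h1 h2).1 (by rw [← e2]; exact c2)
      have k2 := (h.lt_iff hu hz hw huz (h2.trans hvw) (h1.trans hvw)).1 (by rw [← e1]; exact c1)
      omega
    · have k1 := (h.lt_iff hv hz hu (Ne.symm hzv) h2 (h1.trans h2)).1 (by rw [← e3]; exact c2)
      omega
  · rcases lt_or_gt_of_ne hyzw with h2 | h2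
    · left
      have hxz := harm z hz hzv hzw h2
      have h3 : y u < y z := by
        by_contra hcon
        have h3 : y z < y u := lt_of_le_of_ne (not_lt.1 hcon) (Ne.symm hyuz)
        have k1 := (h.lt_iff hv hz hu (Ne.symm hzv) (h1.trans h3) h3).1 (by rw [← e3]; exact c2)
        omega
      have k2 := (h.lt_iff hu hz hw huz (h3.trans h2) h2).1 (by rw [← e1]; exact c1)
      exact ⟨h1, h2, h3, k2, hxz⟩
    · right
      have k0 := (h.lt_iff hv hw hz hE.ne h1 h2).1 (hE.pos z hz hzv hzw)
      have h3 : y z < y u := by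
        by_contra hcon
        have h3 : y u < y z := lt_of_le_of_ne (not_lt.1 hcon) hyuz
        have k1 := (h.lt_iff hw hu hz (Ne.symm huw) h2 h3).1 c1
        have k2 := (h.lt_iff hu hv hz huv h3 h1).1 c2
        omega
      have k1 := (h.lt_iff hz hw hu hzw h3 (h2.trans h3)).1 (by rw [← e4]; exact c1)
      have k2 := (h.lt_iff hv hz hu (Ne.symm hzv) (h1.trans h3) h3).1 (by rw [← e3]; exact c2)
      exact ⟨k2, k1, h2, h3⟩

lemma cut_left {z u v w : P} (h : Rep s T x y) (hE : HE s v w T) (hL : LT T x y v w)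
    (hz : z ∈ T) (hu : u ∈ T) (hzv : z ≠ v) (hzw : z ≠ w) (huv : u ≠ v) (huw : u ≠ w)
    (huz : u ≠ z) (hc : CutBy s z u v w) :
    (y w < y z ∧ y z < y v ∧ y u < y z ∧ x z < x u ∧ x w < x z) ∨
    (x v < x z ∧ x z < x w ∧ y v < y z ∧ y z < y u) := by
  have := cut_right h.mirror hE.mirror hL.mirror hz hu hzw hzv huw huv huz hc.mirror
  omega

/-- Blocked hull edges are cut by some point. -/
lemma cutter_right {v w a b : P} (h : Rep s T x y) (hE : HE s v w T) (hR : RT T x y v w)
    (ha : a ∈ T) (hb : b ∈ T) (hav : a ≠ v) (haw : a ≠ w) (hbv : b ≠ v) (hbw : b ≠ w)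
    (hab : a ≠ b) (hsep : D s a b w * D s a b v < 0) :
    CutBy s b a v w ∨ CutBy s a b v w := by
  have hv := hE.hv
  have hw := hE.hw
  wlog hyab : y a < y b generalizing a b
  · have h1 : y b < y a := lt_of_le_of_ne (not_lt.1 hyab) (h.yne hb ha hab.symm)
    have := this hb ha hbv hbw hav haw hab.symm
      (by rw [D_swap s a b w, D_swap s a b v]; linarith) h1
    exact this.symm
  obtain ⟨hvw, harm⟩ := hR
  have hyav := h.yne ha hv hav
  have hyaw := h.yne ha hw haw
  have hybv := h.yne hb hv hbv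
  have hybw := h.yne hb hw hbw
  have hxab := h.xne ha hb hab
  have e1 : D s a b v = - D s a v b := by rw [D_swap' s a v b]
  have e2 : D s a b w = - D s a w b := by rw [D_swap' s a w b]
  have e3 : D s a b v = D s v a b := D_rot s v a b
  have e4 : D s a b w = D s w a b := D_rot s w a b
  have e5 : D s w a b = D s a b w := D_rot' s a b w
  have e6 : D s w b a = D s a w b := D_rot s a w b
  have e7 : D s b v a = D s v a b := D_rot' s v a b
  rcases lt_or_gt_of_ne hybv with h1 | h1
  · exfalso
    rcases lt_or_gt_of_ne hxab with h2 | h2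
    · have k1 := h.pos a ha b hb v hv (hyab.trans h1) h1 h2
      have k2 := h.pos a ha b hb w hw (hyab.trans (h1.trans hvw)) (h1.trans hvw) h2
      nlinarith
    · have k1 := h.neg ha hb hv (hyab.trans h1) h1 h2
      have k2 := h.neg ha hb hw (hyab.trans (h1.trans hvw)) (h1.trans hvw) h2
      nlinarith
  · rcases lt_or_gt_of_ne hybw with h2 | h2
    · left
      have hxa := harm a ha hav haw (hyab.trans h2)
      have k1 : D s a b v < 0 := by
        rcases lt_or_gt_of_ne hyav with h3 | h3
        · rw [e1]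
          have := h.pos a ha v hv b hb hyab h1 hxa
          linarith
        · rw [e3]
          exact h.neg hv ha hb h1 hyab hxa
      have k2 : 0 < D s a b w := by
        by_contra hcon
        nlinarith [mul_nonneg_of_nonpos_of_nonpos (not_lt.1 hcon) k1.le]
      refine ⟨by rw [e5]; exact k2, ?_⟩
      rw [D_swap']
      linarith
    · right
      have hxvw : x v < x w := (h.lt_iff hv hw hb hE.ne h1 h2).1 (hE.pos b hb hbv hbw)
      rcases lt_or_gt_of_ne hyaw with h3 | h3
      · exfalso
        have hxa := harm a ha hav haw h3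
        have k1 := h.pos a ha v hv b hb hyab h1 hxa
        have k2 := h.pos a ha w hw b hb hyab h2 (hxa.trans hxvw)
        nlinarith
      · have hxav := h.xne ha hv hav
        have hxaw := h.xne ha hw haw
        have l1 : x v < x a := by
          by_contra hcon
          have h4 : x a < x v := lt_of_le_of_ne (not_lt.1 hcon) hxav
          have k1 := h.neg hv ha hb h1 hyab h4
          have k2 := h.neg hw ha hb h2 hyab (h4.trans hxvw)
          nlinarith
        have l2 : x a < x w := by
          by_contra hcon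
          have h4 : x w < x a := lt_of_le_of_ne (not_lt.1 hcon) (Ne.symm hxaw)
          have k1 := h.pos v hv a ha b hb h1 hyab l1
          have k2 := h.pos w hw a ha b hb h2 hyab h4
          nlinarith
        refine ⟨?_, ?_⟩
        · rw [e6]; exact h.pos a ha w hw b hb hyab h2 l2
        · rw [e7]; exact h.pos v hv a ha b hb h1 hyab l1

lemma cutter {v w a b : P} (h : Rep s T x y) (hE : HE s v w T)
    (ha : a ∈ T) (hb : b ∈ T) (hav : a ≠ v) (haw : a ≠ w) (hbv : b ≠ v) (hbw : b ≠ w)
    (hab : a ≠ b) (hsep : D s a b w * D s a b v < 0) :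
    CutBy s b a v w ∨ CutBy s a b v w := by
  rcases hE.type h with hR | hL
  · exact cutter_right h hE hR ha hb hav haw hbv hbw hab hsep
  · have := cutter_right h.mirror hE.mirror hL.mirror ha hb haw hav hbw hbv hab (by
      unfold D at hsep ⊢; nlinarith)
    rcases this with h1 | h1
    · left
      have := h1.mirror
      rwa [neg_neg] at this
    · right
      have := h1.mirror
      rwa [neg_neg] at this

/-- Cutting points are inner points. -/
lemma CutBy.not_ext {z u v w : P} (hc : CutBy s z u v w) (hE : HE s v w T) (hz : z ∈ T)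
    (hu : u ∈ T) (hzv : z ≠ v) (hzw : z ≠ w) : ¬ Ext z T :=
  not_ext_of_triangle hE.hv hE.hw hu (hE.pos z hz hzv hzw) hc.1 hc.2

lemma rt_unique {v w v' w' z : P} (hE : HE s v w T) (hE' : HE s v' w' T)
    (hR : RT T x y v w) (hR' : RT T x y v' w') (h1 : y v < y z) (h2 : y z < y w)
    (h1' : y v' < y z) (h2' : y z < y w') (h : Rep s T x y) : v = v' ∧ w = w' := by
  have hv : v = v' := by
    by_contra hne
    have hyne := h.yne hE.hv hE'.hv hne
    have a1 : v' ≠ w := by rintro rfl; omega
    have a2 : v ≠ w' := by rintro rfl; omega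
    have b1 := hR.2 v' hE'.hv (Ne.symm hne) a1 (by omega)
    have b2 := hR'.2 v hE.hv hne a2 (by omega)
    omega
  subst hv
  exact ⟨rfl, hE.unique_right hE'⟩

lemma lt_unique {v w v' w' z : P} (hE : HE s v w T) (hE' : HE s v' w' T)
    (hL : LT T x y v w) (hL' : LT T x y v' w') (h1 : y w < y z) (h2 : y z < y v)
    (h1' : y w' < y z) (h2' : y z < y v') (h : Rep s T x y) : v = v' ∧ w = w' := by
  have := rt_unique hE.mirror hE'.mirror hL.mirror hL'.mirror h1 h2 h1' h2' h.mirror
  exact ⟨this.2, this.1⟩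

lemma col_rr {v w v' w' z : P} (hE : HE s v w T) (hE' : HE s v' w' T)
    (hR : RT T x y v w) (hR' : RT T x y v' w') (h1 : x v < x z) (h2 : x z < x w)
    (h1' : x v' < x z) (h2' : x z < x w') (h : Rep s T x y) : v = v' := by
  by_contra hne
  have hyne := h.yne hE.hv hE'.hv hne
  have r1 := hR.1
  have r2 := hR'.1
  have a1 : v' ≠ w := by rintro rfl; omega
  have a2 : v ≠ w' := by rintro rfl; omega
  have hy1 := h.yne hE'.hv hE.hw a1
  have hy2 := h.yne hE.hv hE'.hw a2
  rcases lt_or_gt_of_ne hyne with h3 | h3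
  · have b2 := hR'.2 v hE.hv hne a2 (by omega)
    rcases lt_or_gt_of_ne hy1 with h4 | h4
    · have b1 := hR.2 v' hE'.hv (Ne.symm hne) a1 h4
      omega
    · have a3 : w ≠ w' := by rintro rfl; omega
      have b1 := hR'.2 w hE.hw (Ne.symm a1) a3 (by omega)
      omega
  · have b2 := hR.2 v' hE'.hv (Ne.symm hne) a1 (by omega)
    rcases lt_or_gt_of_ne hy2 with h4 | h4
    · have b1 := hR'.2 v hE.hv hne a2 h4
      omega
    · have a3 : w' ≠ w := by rintro rfl; omega
      have b1 := hR.2 w' hE'.hw (Ne.symm a2) a3 (by omega)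
      omega

lemma col_rl {v w v' w' z : P} (hE : HE s v w T) (hE' : HE s v' w' T)
    (hR : RT T x y v w) (hL' : LT T x y v' w') (h1 : x v < x z) (h2 : x z < x w)
    (h2' : x z < x w') (h : Rep s T x y) : False := by
  have r1 := hR.1
  have r2 := hL'.1
  have a1 : w' ≠ v := by rintro rfl; omega
  by_cases a2 : w' = w
  · subst a2
    have a3 : v ≠ v' := by rintro rfl; omega
    have b1 := hL'.2 v hE.hv a3 (Ne.symm a1) (by omega)
    omega
  · have hy1 := h.yne hE'.hw hE.hw a2
    rcases lt_or_gt_of_ne hy1 with h4 | h4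
    · have b1 := hR.2 w' hE'.hw a1 a2 h4
      omega
    · have a3 : v ≠ v' := by rintro rfl; omega
      have b1 := hL'.2 v hE.hv a3 (Ne.symm a1) (by omega)
      omega

lemma col_unique {v w v' w' z : P} (hE : HE s v w T) (hE' : HE s v' w' T)
    (h1 : x v < x z) (h2 : x z < x w)
    (h1' : x v' < x z) (h2' : x z < x w') (h : Rep s T x y) : v = v' ∧ w = w' := by
  rcases hE.type h with hR | hL <;> rcases hE'.type h with hR' | hL'
  · have := col_rr hE hE' hR hR' h1 h2 h1' h2' h
    subst this
    exact ⟨rfl, hE.unique_right hE'⟩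
  · exact (col_rl hE hE' hR hL' h1 h2 h2' h).elim
  · exact (col_rl hE' hE hR' hL h1' h2' h2 h).elim
  · have := col_rr hE.mirror hE'.mirror hL.mirror hL'.mirror (z := z) (by omega) (by omega)
      (by omega) (by omega) h.mirror
    subst this
    exact ⟨hE.unique_left hE', rfl⟩

end Pool.Agent.Helper69.Str
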