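import Pool.Agent.Helper69.Str.Basic

/-!
# Extreme points and hull edges
-/

namespace Pool.Agent.Helper69.Str

lemma ext_of_order {s : ℝ} {T : Finset P} {z : P} (ξ : P → ℤ)
    (hinj : ∀ a ∈ T, ∀ b ∈ T, a ≠ z → b ≠ z → ξ a = ξ b → a = b)
    (hpos : ∀ a ∈ T, ∀ b ∈ T, a ≠ z → b ≠ z → ξ a < ξ b → 0 < D s a b z) : Ext z T := by
  classical
  rcases (T.erase z).eq_empty_or_nonempty with he | hne
  · refine ⟨(0, 0), fun p hp hpz => ?_⟩
    have : p ∈ T.erase z := Finset.mem_erase.2 ⟨hpz, hp⟩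
    rw [he] at this
    simp at this
  obtain ⟨a0, ha0, hmin⟩ := (T.erase z).exists_min_image ξ hne
  obtain ⟨b0, hb0, hmax⟩ := (T.erase z).exists_max_image ξ hne
  rw [Finset.mem_erase] at ha0 hb0
  by_cases hab : a0 = b0
  · refine ⟨(a0.1 - z.1, a0.2 - z.2), fun p hp hpz => ?_⟩
    have hp' : p ∈ T.erase z := Finset.mem_erase.2 ⟨hpz, hp⟩
    have h1 := hmin p hp'
    have h2 := hmax p hp'
    rw [← hab] at h2
    have : p = a0 := hinj p hp a0 ha0.2 hpz ha0.1 (le_antisymm h2 h1)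
    subst this
    have hne' : ¬ (p.1 = z.1 ∧ p.2 = z.2) := fun h => hpz (Prod.ext h.1 h.2)
    by_contra hcon
    apply hne'
    simp only at hcon
    constructor <;> nlinarith [sq_nonneg (p.1 - z.1), sq_nonneg (p.2 - z.2)]
  · refine ⟨(s * (b0.2 - a0.2), s * (a0.1 - b0.1)), fun p hp hpz => ?_⟩
    have hp' : p ∈ T.erase z := Finset.mem_erase.2 ⟨hpz, hp⟩
    have key : (s * (b0.2 - a0.2)) * (p.1 - z.1) + (s * (a0.1 - b0.1)) * (p.2 - z.2) =
        D s a0 p z + D s p b0 z := by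
      unfold D det; ring
    have hlt : ξ a0 < ξ b0 := by
      refine lt_of_le_of_ne (hmin b0 (Finset.mem_erase.2 hb0)) fun e => hab ?_
      exact hinj a0 ha0.2 b0 hb0.2 ha0.1 hb0.1 e
    have hAB : 0 < D s a0 b0 z := hpos a0 ha0.2 b0 hb0.2 ha0.1 hb0.1 hlt
    simp only
    rw [key]
    by_cases h1 : p = a0
    · subst h1
      rw [D_self₁]; linarith
    by_cases h2 : p = b0
    · subst h2
      rw [D_self₁]; linarith
    have h3 : 0 < D s a0 p z := hpos a0 ha0.2 p hp ha0.1 hpz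
      (lt_of_le_of_ne (hmin p hp') fun e => h1 (hinj a0 ha0.2 p hp ha0.1 hpz e).symm)
    have h4 : 0 < D s p b0 z := hpos p hp b0 hb0.2 hpz hb0.1
      (lt_of_le_of_ne (hmax p hp') fun e => h2 (hinj p hp b0 hb0.2 hpz hb0.1 e))
    linarith

lemma not_ext_of_triangle {s : ℝ} {S : Finset P} {z a b c : P} (ha : a ∈ S) (hb : b ∈ S)
    (hc : c ∈ S) (h1 : 0 < D s a b z) (h2 : 0 < D s b c z) (h3 : 0 < D s c a z) :
    ¬ Ext z S := by
  rintro ⟨G, hG⟩
  have haz : a ≠ z := by rintro rfl; rw [D_self₃] at h1; exact lt_irrefl _ h1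
  have hbz : b ≠ z := by rintro rfl; rw [D_self₂] at h1; exact lt_irrefl _ h1
  have hcz : c ≠ z := by rintro rfl; rw [D_self₂] at h2; exact lt_irrefl _ h2
  have ga := hG a ha haz
  have gb := hG b hb hbz
  have gc := hG c hc hcz
  have key : D s b c z * (G.1 * (a.1 - z.1) + G.2 * (a.2 - z.2)) +
      D s c a z * (G.1 * (b.1 - z.1) + G.2 * (b.2 - z.2)) +
      D s a b z * (G.1 * (c.1 - z.1) + G.2 * (c.2 - z.2)) = 0 := by
    unfold D det; ring
  have k1 := mul_pos h2 ga
  have k2 := mul_pos h3 gb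
  have k3 := mul_pos h1 gc
  linarith

lemma exists_small {ι : Type*} (F : Finset ι) (g c : ι → ℝ) (hg : ∀ i ∈ F, 0 < g i) :
    ∃ δ : ℝ, 0 < δ ∧ ∀ i ∈ F, 0 < g i + δ * c i := by
  classical
  induction F using Finset.induction_on with
  | empty => exact ⟨1, one_pos, by simp⟩
  | insert i F hi ih =>
    obtain ⟨δ, hδ, h⟩ := ih fun j hj => hg j (Finset.mem_insert_of_mem hj)
    have hgi := hg i (Finset.mem_insert_self _ _)
    refine ⟨min δ (g i / (|c i| + 1)), lt_min hδ (by positivity), fun j hj => ?_⟩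
    rcases Finset.mem_insert.1 hj with rfl | hj
    · have h1 : min δ (g j / (|c j| + 1)) ≤ g j / (|c j| + 1) := min_le_right _ _
      have h0 : 0 < min δ (g j / (|c j| + 1)) := lt_min hδ (by positivity)
      have h2 : min δ (g j / (|c j| + 1)) * |c j| < g j := by
        calc min δ (g j / (|c j| + 1)) * |c j| ≤ g j / (|c j| + 1) * |c j| := by gcongr
          _ < g j := by
            rw [div_mul_eq_mul_div, div_lt_iff₀ (by positivity)]
            nlinarith [abs_nonneg (c j)]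
      have h3 : - (min δ (g j / (|c j| + 1)) * |c j|) ≤ min δ (g j / (|c j| + 1)) * c j := by
        have := neg_abs_le (c j)
        nlinarith
      linarith
    · have h0 : 0 < min δ (g i / (|c i| + 1)) := lt_min hδ (by positivity)
      have h1 : min δ (g i / (|c i| + 1)) ≤ δ := min_le_left _ _
      have h2 := h j hj
      have h3 := hg j (Finset.mem_insert_of_mem hj)
      by_cases hcj : 0 ≤ c j
      · have := mul_nonneg h0.le hcj
        linarith
      · push Not at hcj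
        nlinarith

/-- An extreme point remains extreme when an inner point is added. -/
lemma ext_of_erase {S : Finset P} {x0 q : P} (hq : q ∈ S) (hx0 : x0 ∈ S) (hne : q ≠ x0)
    (h : Ext q (S.erase x0)) (hint : ¬ Ext x0 S) : Ext q S := by
  classical
  obtain ⟨G, hG⟩ := h
  set g : P → ℝ := fun p => G.1 * (p.1 - q.1) + G.2 * (p.2 - q.2) with hg
  have hgp : ∀ p ∈ S, p ≠ q → p ≠ x0 → 0 < g p := fun p hp h1 h2 =>
    hG p (Finset.mem_erase.2 ⟨h2, hp⟩) h1
  have hgq : g q = 0 := by simp [hg]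
  rcases lt_trichotomy (g x0) 0 with h0 | h0 | h0
  · exfalso
    apply hint
    refine ⟨G, fun p hp hpx => ?_⟩
    have e : G.1 * (p.1 - x0.1) + G.2 * (p.2 - x0.2) = g p - g x0 := by simp only [hg]; ring
    rw [e]
    by_cases hpq : p = q
    · subst hpq; rw [hgq]; linarith
    · have := hgp p hp hpq hpx; linarith
  · exfalso
    apply hint
    obtain ⟨δ, hδ, hsm⟩ := exists_small ((S.erase x0).erase q) g
      (fun p => (q.1 - x0.1) * (p.1 - x0.1) + (q.2 - x0.2) * (p.2 - x0.2)) (fun p hp => by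
        simp only [Finset.mem_erase] at hp
        exact hgp p hp.2.2 hp.1 hp.2.1)
    refine ⟨(G.1 + δ * (q.1 - x0.1), G.2 + δ * (q.2 - x0.2)), fun p hp hpx => ?_⟩
    have e : (G.1 + δ * (q.1 - x0.1)) * (p.1 - x0.1) + (G.2 + δ * (q.2 - x0.2)) * (p.2 - x0.2) =
        (g p - g x0) + δ * ((q.1 - x0.1) * (p.1 - x0.1) + (q.2 - x0.2) * (p.2 - x0.2)) := by
      simp only [hg]; ring
    simp only
    rw [e, h0, sub_zero]
    by_cases hpq : p = q
    · subst hpq
      rw [hgq, zero_add]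
      apply mul_pos hδ
      by_contra hcon
      apply hne
      apply Prod.ext <;> nlinarith [sq_nonneg (p.1 - x0.1), sq_nonneg (p.2 - x0.2)]
    · exact hsm p (by simp only [Finset.mem_erase]; exact ⟨hpq, hpx, hp⟩)
  · refine ⟨G, fun p hp hpq => ?_⟩
    by_cases hpx : p = x0
    · subst hpx; exact h0
    · exact hgp p hp hpq hpx

/-- Oriented hull edges. -/
structure HE (s : ℝ) (v w : P) (S : Finset P) : Prop where
  hv : v ∈ S
  hw : w ∈ S
  ne : v ≠ w
  pos : ∀ p ∈ S, p ≠ v → p ≠ w → 0 < D s v w p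

lemma HE.mono {s : ℝ} {v w : P} {S T : Finset P} (h : HE s v w S) (hT : T ⊆ S) (hv : v ∈ T)
    (hw : w ∈ T) : HE s v w T :=
  ⟨hv, hw, h.ne, fun p hp => h.pos p (hT hp)⟩

lemma HE.unique_right {s : ℝ} {v w w' : P} {S : Finset P} (h : HE s v w S) (h' : HE s v w' S) :
    w = w' := by
  by_contra hne
  have h1 := h.pos w' h'.hw h'.ne.symm (Ne.symm hne)
  have h2 := h'.pos w h.hw h.ne.symm hne
  rw [D_swap'] at h2
  linarith

lemma HE.unique_left {s : ℝ} {v v' w : P} {S : Finset P} (h : HE s v w S) (h' : HE s v' w S) :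
    v = v' := by
  by_contra hne
  have h1 := h.pos v' h'.hv (Ne.symm hne) h'.ne
  have h2 := h'.pos v h.hv hne h.ne
  rw [D_swap'' s v' w v] at h1
  linarith

/-- Each extreme point is the start of a hull edge. -/
lemma Ext.exists_HE {s : ℝ} (hs : s = 1 ∨ s = -1) {v : P} {S : Finset P} (h : Ext v S)
    (hv : v ∈ S) (hgp : GP S) (hcard : 2 ≤ S.card) : ∃ w, HE s v w S := by
  classical
  obtain ⟨X, hX⟩ := h.order s
  have hne : (S.erase v).Nonempty := by
    rw [← Finset.card_pos, Finset.card_erase_of_mem hv]; omega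
  obtain ⟨w, hw, hmin⟩ := (S.erase v).exists_min_image X hne
  rw [Finset.mem_erase] at hw
  refine ⟨w, hv, hw.2, hw.1.symm, fun p hp hpv hpw => ?_⟩
  have hs0 : s ≠ 0 := by rcases hs with rfl | rfl <;> norm_num
  have h1 : ¬ (0 < D s p w v) := by
    rw [hX p hp w hw.2 hpv hw.1]
    exact not_lt.2 (hmin p (Finset.mem_erase.2 ⟨hpv, hp⟩))
  have h2 : D s p w v ≠ 0 := hgp.D_ne hs0 hp hw.2 hv hpw hpv hw.1
  have h3 : D s p w v < 0 := lt_of_le_of_ne (not_lt.1 h1) h2
  rw [D_swap''] at h3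
  linarith

/-- Hull edges are not destroyed by adding an inner point. -/
lemma HE.of_erase {s : ℝ} (hs : s = 1 ∨ s = -1) {v w x0 : P} {S : Finset P}
    (h : HE s v w (S.erase x0)) (hx0 : x0 ∈ S) (hgp : GP S) (hint : ¬ Ext x0 S) :
    HE s v w S := by
  have hs0 : s ≠ 0 := by rcases hs with rfl | rfl <;> norm_num
  have hv := Finset.mem_erase.1 h.hv
  have hw := Finset.mem_erase.1 h.hw
  refine ⟨hv.2, hw.2, h.ne, fun p hp hpv hpw => ?_⟩
  by_cases hpx : p = x0
  · subst hpx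
    rcases lt_trichotomy (D s v w p) 0 with h0 | h0 | h0
    · exfalso
      apply hint
      refine ⟨(s * (v.2 - w.2), s * (w.1 - v.1)), fun r hr hrp => ?_⟩
      have e : (s * (v.2 - w.2)) * (r.1 - p.1) + (s * (w.1 - v.1)) * (r.2 - p.2) =
          D s v w r - D s v w p := by unfold D det; ring
      simp only
      rw [e]
      by_cases hrv : r = v
      · subst hrv; rw [D_self₃]; linarith
      by_cases hrw : r = w
      · subst hrw; rw [D_self₂]; linarith
      have := h.pos r (Finset.mem_erase.2 ⟨hrp, hr⟩) hrv hrw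
      linarith
    · exact absurd h0 (hgp.D_ne hs0 hv.2 hw.2 hp h.ne (Ne.symm hpv) (Ne.symm hpw))
    · exact h0
  · exact h.pos p (Finset.mem_erase.2 ⟨hpx, hp⟩) hpv hpw

end Pool.Agent.Helper69.Str
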