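import Pool.Agent.Helper69.Str.Hull

/-!
# Stuck sets
-/

namespace Pool.Agent.Helper69.Str

/-- The line `a b` separates `q` and `t`. -/
def Sep (q a b t : P) : Prop := det a b q * det a b t < 0

/-- Nonempty set no point of which can be removed first, seen from `q`. -/
def Stuck (q : P) (R : Finset P) : Prop :=
  R.Nonempty ∧ ∀ t ∈ R, ∃ a ∈ R, ∃ b ∈ R, a ≠ t ∧ b ≠ t ∧ Sep q a b t

lemma exists_tangent {s : ℝ} {R : Finset P} {L q : P} (hne : ∃ t ∈ R, t ≠ L)
    (hpos : ∀ t ∈ R, t ≠ L → 0 < D s L t q)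
    (hgp : ∀ a ∈ R, ∀ b ∈ R, a ≠ L → b ≠ L → a ≠ b → D s L a b ≠ 0) :
    ∃ h ∈ R, h ≠ L ∧ ∀ t ∈ R, t ≠ L → t ≠ h → D s L h t < 0 := by
  classical
  set f : P → ℝ := fun t => ((t.1 - L.1) * (q.1 - L.1) + (t.2 - L.2) * (q.2 - L.2)) / D s L t q
    with hf
  obtain ⟨t0, ht0, ht0L⟩ := hne
  obtain ⟨h, hh, hmax⟩ := (R.erase L).exists_max_image f ⟨t0, Finset.mem_erase.2 ⟨ht0L, ht0⟩⟩
  rw [Finset.mem_erase] at hh
  refine ⟨h, hh.2, hh.1, fun t ht htL hth => ?_⟩
  have h1 := hmax t (Finset.mem_erase.2 ⟨htL, ht⟩)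
  have ph := hpos h hh.2 hh.1
  have pt := hpos t ht htL
  simp only [hf] at h1
  rw [div_le_div_iff₀ pt ph] at h1
  have key : ((t.1 - L.1) * (q.1 - L.1) + (t.2 - L.2) * (q.2 - L.2)) * D s L h q -
      ((h.1 - L.1) * (q.1 - L.1) + (h.2 - L.2) * (q.2 - L.2)) * D s L t q =
      ((q.1 - L.1) ^ 2 + (q.2 - L.2) ^ 2) * D s L h t := by
    unfold D det; ring
  have h2 : ((q.1 - L.1) ^ 2 + (q.2 - L.2) ^ 2) * D s L h t ≤ 0 := by linarith
  have h3 : D s L h t ≠ 0 := hgp h hh.2 t ht hh.1 htL (Ne.symm hth)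
  have h4 : 0 < (q.1 - L.1) ^ 2 + (q.2 - L.2) ^ 2 := by
    by_contra hcon
    have e1 : q.1 - L.1 = 0 := by nlinarith [sq_nonneg (q.1 - L.1), sq_nonneg (q.2 - L.2)]
    have e2 : q.2 - L.2 = 0 := by nlinarith [sq_nonneg (q.1 - L.1), sq_nonneg (q.2 - L.2)]
    have : D s L h q = 0 := by unfold D det; rw [e1, e2]; ring
    linarith
  rcases lt_or_gt_of_ne h3 with h5 | h5
  · exact h5
  · nlinarith

lemma sep_of {s : ℝ} (hs : s = 1 ∨ s = -1) {q a b t : P} (h1 : 0 < D s a b q)
    (h2 : D s a b t < 0) : Sep q a b t := by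
  unfold Sep
  unfold D at h1 h2
  rcases hs with rfl | rfl <;> nlinarith

lemma sep_of' {s : ℝ} (hs : s = 1 ∨ s = -1) {q a b t : P} (h1 : D s a b q < 0)
    (h2 : 0 < D s a b t) : Sep q a b t := by
  unfold Sep
  unfold D at h1 h2
  rcases hs with rfl | rfl <;> nlinarith

lemma Sep.symm {q a b t : P} (h : Sep q a b t) : Sep q b a t := by
  unfold Sep det at *
  nlinarith

/-- Small stuck subsets. -/
lemma stuck_small {R : Finset P} {q : P} (hgp : GP (insert q R)) (hqR : q ∉ R)
    (hext : Ext q (insert q R)) (h : Stuck q R) : ∃ R' ⊆ R, R'.card ≤ 6 ∧ Stuck q R' := by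
  classical
  obtain ⟨hRne, hst⟩ := h
  obtain ⟨X, hX⟩ := hext.order 1
  have memR : ∀ {p}, p ∈ R → p ∈ insert q R := fun hp => Finset.mem_insert_of_mem hp
  have hq : q ∈ insert q R := Finset.mem_insert_self _ _
  have neq : ∀ {p}, p ∈ R → p ≠ q := fun hp e => hqR (e ▸ hp)
  have hXR : ∀ a ∈ R, ∀ b ∈ R, (0 < D 1 a b q ↔ X a < X b) := fun a ha b hb =>
    hX a (memR ha) b (memR hb) (neq ha) (neq hb)
  have hD : ∀ a ∈ R, ∀ b ∈ R, a ≠ b → D 1 a b q ≠ 0 := fun a ha b hb hab =>
    hgp.D_ne one_ne_zero (memR ha) (memR hb) hq hab (neq ha) (neq hb)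
  obtain ⟨L, hL, hLmin⟩ := R.exists_min_image X hRne
  obtain ⟨M, hM, hMmax⟩ := R.exists_max_image X hRne
  have hLpos : ∀ t ∈ R, t ≠ L → 0 < D 1 L t q := fun t ht htL => by
    have h1 : ¬ (0 < D 1 t L q) := by
      rw [hXR t ht L hL]; exact not_lt.2 (hLmin t ht)
    have h2 := hD t ht L hL htL
    rw [D_swap]
    have := lt_of_le_of_ne (not_lt.1 h1) h2
    linarith
  have hMpos : ∀ t ∈ R, t ≠ M → 0 < D (-1) M t q := fun t ht htM => by
    have h1 : ¬ (0 < D 1 M t q) := by
      rw [hXR M hM t ht]; exact not_lt.2 (hMmax t ht)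
    have h2 := hD M hM t ht (Ne.symm htM)
    have := lt_of_le_of_ne (not_lt.1 h1) h2
    unfold D at this ⊢
    linarith
  obtain ⟨aL, haL, bL, hbL, haLne, hbLne, hsepL⟩ := hst L hL
  obtain ⟨aM, haM, bM, hbM, haMne, hbMne, hsepM⟩ := hst M hM
  obtain ⟨h, hh, hhL, hhneg⟩ := exists_tangent (s := 1) ⟨aL, haL, haLne⟩ hLpos
    (fun a ha b hb h1 h2 h3 => hgp.D_ne one_ne_zero (memR hL) (memR ha) (memR hb)
      (Ne.symm h1) (Ne.symm h2) h3)
  obtain ⟨k, hk, hkM, hkneg⟩ := exists_tangent (s := -1) ⟨aM, haM, haMne⟩ hMpos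
    (fun a ha b hb h1 h2 h3 => hgp.D_ne (by norm_num) (memR hM) (memR ha) (memR hb)
      (Ne.symm h1) (Ne.symm h2) h3)
  have sepL : ∀ t ∈ R, t ≠ L → t ≠ h → Sep q L h t := fun t ht h1 h2 =>
    sep_of (Or.inl rfl) (hLpos h hh hhL) (hhneg t ht h1 h2)
  have sepM : ∀ t ∈ R, t ≠ M → t ≠ k → Sep q M k t := fun t ht h1 h2 =>
    sep_of (Or.inr rfl) (hMpos k hk hkM) (hkneg t ht h1 h2)
  have hLM : L ≠ M := by
    intro e
    have h1 := hLpos h hh hhL
    rw [hXR L hL h hh] at h1
    have := hMmax h hh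
    rw [← e] at this
    linarith
  by_cases c1 : h = M
  · -- only two upper hull vertices
    subst c1
    refine ⟨{L, h, aL, bL, aM, bM}, ?_, Finset.card_le_six, ⟨L, by simp⟩, ?_⟩
    · intro p hp
      simp only [Finset.mem_insert, Finset.mem_singleton] at hp
      rcases hp with rfl | rfl | rfl | rfl | rfl | rfl <;> assumption
    · intro t ht
      have htR : t ∈ R := by
        simp only [Finset.mem_insert, Finset.mem_singleton] at ht
        rcases ht with rfl | rfl | rfl | rfl | rfl | rfl <;> assumption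
      by_cases h1 : t = L
      · subst h1
        exact ⟨aL, by simp, bL, by simp, haLne, hbLne, hsepL⟩
      by_cases h2 : t = h
      · subst h2
        exact ⟨aM, by simp, bM, by simp, haMne, hbMne, hsepM⟩
      exact ⟨L, by simp, h, by simp, Ne.symm h1, Ne.symm h2, sepL t htR h1 h2⟩
  by_cases c2 : k = L
  · subst c2
    refine ⟨{k, M, aL, bL, aM, bM}, ?_, Finset.card_le_six, ⟨k, by simp⟩, ?_⟩
    · intro p hp
      simp only [Finset.mem_insert, Finset.mem_singleton] at hp
      rcases hp with rfl | rfl | rfl | rfl | rfl | rfl <;> assumption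
    · intro t ht
      have htR : t ∈ R := by
        simp only [Finset.mem_insert, Finset.mem_singleton] at ht
        rcases ht with rfl | rfl | rfl | rfl | rfl | rfl <;> assumption
      by_cases h1 : t = k
      · subst h1
        exact ⟨aL, by simp, bL, by simp, haLne, hbLne, hsepL⟩
      by_cases h2 : t = M
      · subst h2
        exact ⟨aM, by simp, bM, by simp, haMne, hbMne, hsepM⟩
      exact ⟨M, by simp, k, by simp, Ne.symm h2, Ne.symm h1, sepM t htR h2 h1⟩
  by_cases c3 : h = k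
  · subst c3
    obtain ⟨a, ha, b, hb, hah, hbh, hsep⟩ := hst h hh
    refine ⟨{L, h, M, a, b}, ?_, Finset.card_le_five.trans (by norm_num), ⟨L, by simp⟩, ?_⟩
    · intro p hp
      simp only [Finset.mem_insert, Finset.mem_singleton] at hp
      rcases hp with rfl | rfl | rfl | rfl | rfl <;> assumption
    · intro t ht
      have htR : t ∈ R := by
        simp only [Finset.mem_insert, Finset.mem_singleton] at ht
        rcases ht with rfl | rfl | rfl | rfl | rfl <;> assumption
      by_cases h2 : t = h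
      · subst h2
        exact ⟨a, by simp, b, by simp, hah, hbh, hsep⟩
      by_cases h1 : t = L
      · subst h1
        exact ⟨M, by simp, h, by simp, Ne.symm hLM, hhL, sepM t htR hLM h2⟩
      exact ⟨L, by simp, h, by simp, Ne.symm h1, Ne.symm h2, sepL t htR h1 h2⟩
  · refine ⟨{L, h, k, M}, ?_, Finset.card_le_four.trans (by norm_num), ⟨L, by simp⟩, ?_⟩
    · intro p hp
      simp only [Finset.mem_insert, Finset.mem_singleton] at hp
      rcases hp with rfl | rfl | rfl | rfl <;> assumption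
    · intro t ht
      have htR : t ∈ R := by
        simp only [Finset.mem_insert, Finset.mem_singleton] at ht
        rcases ht with rfl | rfl | rfl | rfl <;> assumption
      by_cases h1 : t ≠ L ∧ t ≠ h
      · exact ⟨L, by simp, h, by simp, Ne.symm h1.1, Ne.symm h1.2, sepL t htR h1.1 h1.2⟩
      · have h2 : t ≠ M ∧ t ≠ k := by
          rcases not_and_or.1 h1 with h3 | h3
          · have : t = L := not_not.1 h3
            subst this
            exact ⟨hLM, Ne.symm c2⟩
          · have : t = h := not_not.1 h3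
            subst this
            exact ⟨c1, c3⟩
        exact ⟨M, by simp, k, by simp, Ne.symm h2.1, Ne.symm h2.2, sepM t htR h2.1 h2.2⟩

/-- Removal order of a set without stuck subsets. -/
lemma exists_peel {q : P} (n : ℕ) (R : Finset P) (hn : R.card = n)
    (h : ∀ R' ⊆ R, ¬ Stuck q R') :
    ∃ y : P → ℤ, (∀ p ∈ R, y p < n) ∧ (∀ a ∈ R, ∀ b ∈ R, y a = y b → a = b) ∧
      ∀ a ∈ R, ∀ b ∈ R, ∀ c ∈ R, y a < y c → y b < y c → ¬ Sep q a b c := by
  classical
  induction n generalizing R with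
  | zero =>
    rw [Finset.card_eq_zero] at hn
    subst hn
    exact ⟨fun _ => 0, by simp, by simp, by simp⟩
  | succ n ih =>
    have hne : R.Nonempty := by rw [← Finset.card_pos]; omega
    have hns := h R subset_rfl
    unfold Stuck at hns
    push Not at hns
    obtain ⟨t, ht, hts⟩ := hns hne
    obtain ⟨y, hy1, hy2, hy3⟩ := ih (R.erase t) (by rw [Finset.card_erase_of_mem ht]; omega)
      (fun R' hR' => h R' (hR'.trans (Finset.erase_subset _ _)))
    refine ⟨fun p => if p = t then (n : ℤ) else y p, ?_, ?_, ?_⟩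
    · intro p hp
      by_cases hpt : p = t
      · simp [hpt]
      · have := hy1 p (Finset.mem_erase.2 ⟨hpt, hp⟩)
        simp only [hpt, if_false]
        push_cast
        linarith
    · intro a ha b hb e
      by_cases hat : a = t <;> by_cases hbt : b = t
      · rw [hat, hbt]
      · have := hy1 b (Finset.mem_erase.2 ⟨hbt, hb⟩)
        simp only [hat, hbt, if_true, if_false] at e
        omega
      · have := hy1 a (Finset.mem_erase.2 ⟨hat, ha⟩)
        simp only [hat, hbt, if_true, if_false] at e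
        omega
      · simp only [hat, hbt, if_false] at e
        exact hy2 a (Finset.mem_erase.2 ⟨hat, ha⟩) b (Finset.mem_erase.2 ⟨hbt, hb⟩) e
    · intro a ha b hb c hc h1 h2
      by_cases hct : c = t
      · subst hct
        have hac : a ≠ c := by rintro rfl; simp at h1
        have hbc : b ≠ c := by rintro rfl; simp at h2
        exact hts a ha b hb hac hbc
      · have hat : a ≠ t := by
          rintro rfl
          have := hy1 c (Finset.mem_erase.2 ⟨hct, hc⟩)
          simp only [hct, if_true, if_false] at h1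
          omega
        have hbt : b ≠ t := by
          rintro rfl
          have := hy1 c (Finset.mem_erase.2 ⟨hct, hc⟩)
          simp only [hct, if_true, if_false] at h2
          omega
        simp only [hct, hat, hbt, if_false] at h1 h2
        exact hy3 a (Finset.mem_erase.2 ⟨hat, ha⟩) b (Finset.mem_erase.2 ⟨hbt, hb⟩) c
          (Finset.mem_erase.2 ⟨hct, hc⟩) h1 h2

lemma hasRep_of_not_stuck {s : ℝ} (hs : s = 1 ∨ s = -1) {S : Finset P} {q : P} (hq : q ∈ S)
    (hgp : GP S) (hext : Ext q S) (h : ∀ R ⊆ S.erase q, ¬ Stuck q R) : HasRep s S := by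
  classical
  have hs0 : s ≠ 0 := by rcases hs with rfl | rfl <;> norm_num
  obtain ⟨X, hX⟩ := hext.order s
  obtain ⟨y, hy1, hy2, hy3⟩ := exists_peel (q := q) _ (S.erase q) rfl h
  have hD : ∀ a ∈ S, ∀ b ∈ S, a ≠ q → b ≠ q → a ≠ b → X a ≠ X b := by
    intro a ha b hb haq hbq hab e
    rcases lt_or_gt_of_ne (hgp.D_ne hs0 ha hb hq hab haq hbq) with h1 | h1
    · have h2 : 0 < D s b a q := by rw [D_swap]; linarith
      rw [hX b hb a ha hbq haq] at h2
      linarith
    · rw [hX a ha b hb haq hbq] at h1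
      linarith
  have hrk : ∀ p, rk X S p ≤ S.card := fun p => by
    unfold rk
    exact_mod_cast Finset.card_le_card (Finset.filter_subset _ _)
  set x' : P → ℤ := fun p => if p = q then (S.card : ℤ) + 1 else rk X S p with hx'
  set y' : P → ℤ := fun p => if p = q then ((S.erase q).card : ℤ) else y p with hy'
  have xq : x' q = (S.card : ℤ) + 1 := by simp [hx']
  have xp : ∀ p, p ≠ q → x' p = rk X S p := fun p h => by simp [hx', h]
  have yq : y' q = ((S.erase q).card : ℤ) := by simp [hy']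
  have yp : ∀ p, p ≠ q → y' p = y p := fun p h => by simp [hy', h]
  have ylt : ∀ p ∈ S, p ≠ q → y p < ((S.erase q).card : ℤ) := fun p hp hpq =>
    hy1 p (Finset.mem_erase.2 ⟨hpq, hp⟩)
  refine ⟨x', y', ?_, ?_, ?_⟩
  · intro a ha b hb e
    by_contra hab
    by_cases haq : a = q
    · subst haq
      rw [xq, xp b (Ne.symm hab)] at e
      have := hrk b
      omega
    · by_cases hbq : b = q
      · subst hbq
        rw [xq, xp a hab] at e
        have := hrk a
        omega
      · rw [xp a haq, xp b hbq] at e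
        rcases lt_or_gt_of_ne (hD a ha b hb haq hbq hab) with h1 | h1
        · have := rk_lt ha h1; omega
        · have := rk_lt hb h1; omega
  · intro a ha b hb e
    by_contra hab
    by_cases haq : a = q
    · subst haq
      rw [yq, yp b (Ne.symm hab)] at e
      have := ylt b hb (Ne.symm hab)
      omega
    · by_cases hbq : b = q
      · subst hbq
        rw [yq, yp a hab] at e
        have := ylt a ha hab
        omega
      · rw [yp a haq, yp b hbq] at e
        exact hab (hy2 a (Finset.mem_erase.2 ⟨haq, ha⟩) b (Finset.mem_erase.2 ⟨hbq, hb⟩) e)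
  · intro a ha b hb c hc h1 h2 h3
    have hab : a ≠ b := by rintro rfl; exact lt_irrefl _ h3
    have haq : a ≠ q := by
      rintro rfl
      rw [yq] at h1
      by_cases hca : c = a
      · subst hca; rw [yq] at h1; exact lt_irrefl _ h1
      · rw [yp c hca] at h1
        have := ylt c hc hca
        omega
    have hbq : b ≠ q := by
      rintro rfl
      rw [yq] at h2
      by_cases hcb : c = b
      · subst hcb; rw [yq] at h2; exact lt_irrefl _ h2
      · rw [yp c hcb] at h2
        have := ylt c hc hcb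
        omega
    rw [xp a haq, xp b hbq, rk_lt_iff ha hb, ← hX a ha b hb haq hbq] at h3
    by_cases hcq : c = q
    · subst hcq; exact h3
    · have hac : a ≠ c := by rintro rfl; exact lt_irrefl _ h1
      have hbc : b ≠ c := by rintro rfl; exact lt_irrefl _ h2
      rw [yp a haq, yp c hcq] at h1
      rw [yp b hbq, yp c hcq] at h2
      have h4 := hy3 a (Finset.mem_erase.2 ⟨haq, ha⟩) b (Finset.mem_erase.2 ⟨hbq, hb⟩) c
        (Finset.mem_erase.2 ⟨hcq, hc⟩) h1 h2
      have h5 := hgp.D_ne hs0 ha hb hc hab hac hbc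
      rcases lt_or_gt_of_ne h5 with h6 | h6
      · exact absurd (sep_of hs h3 h6) h4
      · exact h6

lemma not_stuck_of_rep {s : ℝ} (hs : s = 1 ∨ s = -1) {S R : Finset P} {x y : P → ℤ} {q : P}
    (h : Rep s S x y) (hq : Top y S q) (hR : R ⊆ S) (hqR : q ∉ R) : ¬ Stuck q R := by
  rintro ⟨hne, hst⟩
  obtain ⟨t, ht, hmax⟩ := R.exists_max_image y hne
  obtain ⟨a, ha, b, hb, hat, hbt, hsep⟩ := hst t ht
  have hab : a ≠ b := by
    rintro rfl
    unfold Sep det at hsep
    nlinarith
  have h1 : y a < y t := lt_of_le_of_ne (hmax a ha) (h.yne (hR ha) (hR ht) hat)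
  have h2 : y b < y t := lt_of_le_of_ne (hmax b hb) (h.yne (hR hb) (hR ht) hbt)
  have h3 : ∀ p ∈ R, y p < y q := fun p hp => hq.2 p (hR hp) (fun e => hqR (e ▸ hp))
  unfold Sep at hsep
  rcases lt_or_gt_of_ne (h.xne (hR ha) (hR hb) hab) with h4 | h4
  · have k1 := h.pos a (hR ha) b (hR hb) t (hR ht) h1 h2 h4
    have k2 := h.pos a (hR ha) b (hR hb) q hq.1 (h3 a ha) (h3 b hb) h4
    unfold D at k1 k2
    rcases hs with rfl | rfl <;> nlinarith
  · have k1 := h.neg (hR ha) (hR hb) (hR ht) h1 h2 h4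
    have k2 := h.neg (hR ha) (hR hb) hq.1 (h3 a ha) (h3 b hb) h4
    unfold D at k1 k2
    rcases hs with rfl | rfl <;> nlinarith

end Pool.Agent.Helper69.Str
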