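import Pool.Agent.Helper69.Str.Arm
import Pool.Agent.Helper69.Str.Peel

/-!
# Rules for sets that can be removed starting from several points
-/

namespace Pool.Agent.Helper69.Str

namespace Rep

variable {s : ℝ} {T : Finset P} {x y : P → ℤ} (h : Rep s T x y) {a b c : P} (ha : a ∈ T)
  (hb : b ∈ T) (hc : c ∈ T)

include h ha hb hc

lemma pos1 (h1 : y b < y a) (h2 : y c < y a) (h3 : x b < x c) : 0 < D s a b c := by
  rw [← D_rot s a b c]; exact h.pos b hb c hc a ha h1 h2 h3

lemma neg1 (h1 : y b < y a) (h2 : y c < y a) (h3 : x c < x b) : D s a b c < 0 := by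
  rw [← D_rot s a b c]; exact h.neg hb hc ha h1 h2 h3

lemma pos2 (h1 : y a < y b) (h2 : y c < y b) (h3 : x c < x a) : 0 < D s a b c := by
  rw [← D_rot' s a b c]; exact h.pos c hc a ha b hb h2 h1 h3

lemma neg2 (h1 : y a < y b) (h2 : y c < y b) (h3 : x a < x c) : D s a b c < 0 := by
  rw [← D_rot' s a b c]; exact h.neg hc ha hb h2 h1 h3

lemma pos3 (h1 : y a < y c) (h2 : y b < y c) (h3 : x a < x b) : 0 < D s a b c :=
  h.pos a ha b hb c hc h1 h2 h3

lemma neg3 (h1 : y a < y c) (h2 : y b < y c) (h3 : x b < x a) : D s a b c < 0 :=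
  h.neg ha hb hc h1 h2 h3

end Rep

variable {s : ℝ} {T : Finset P} {x y η : P → ℤ}

/-- `η` is a removal order of `T` starting at `r`. -/
def StartOn (r : P) (T : Finset P) (η : P → ℤ) : Prop :=
  (∀ a ∈ T, ∀ b ∈ T, η a = η b → a = b) ∧
    ∀ a ∈ T, ∀ b ∈ T, ∀ c ∈ T, a ≠ r → b ≠ r → c ≠ r → η a < η c → η b < η c → ¬ Sep r a b c

lemma StartOn.mono {r : P} {T' : Finset P} (h : StartOn r T η) (hT : T' ⊆ T) :
    StartOn r T' η :=
  ⟨fun a ha b hb => h.1 a (hT ha) b (hT hb),
    fun a ha b hb c hc => h.2 a (hT ha) b (hT hb) c (hT hc)⟩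

lemma startOn_of_rep (hs : s = 1 ∨ s = -1) (h : Rep s T x y) {r : P} (hr : Top y T r) :
    StartOn r T y := by
  refine ⟨h.yinj, fun a ha b hb c hc har hbr hcr h1 h2 hsep => ?_⟩
  have hab : a ≠ b := by
    rintro rfl
    unfold Sep det at hsep
    nlinarith
  have h3 := hr.2 a ha har
  have h4 := hr.2 b hb hbr
  unfold Sep at hsep
  rcases lt_or_gt_of_ne (h.xne ha hb hab) with h5 | h5
  · have k1 := h.pos a ha b hb c hc h1 h2 h5
    have k2 := h.pos a ha b hb r hr.1 h3 h4 h5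
    unfold D at k1 k2
    rcases hs with rfl | rfl <;> nlinarith
  · have k1 := h.neg ha hb hc h1 h2 h5
    have k2 := h.neg ha hb hr.1 h3 h4 h5
    unfold D at k1 k2
    rcases hs with rfl | rfl <;> nlinarith

lemma StartOn.first {r a b c : P} (h : StartOn r T η) (ha : a ∈ T) (hb : b ∈ T) (hc : c ∈ T)
    (har : a ≠ r) (hbr : b ≠ r) (hcr : c ≠ r) (hac : a ≠ c) (hbc : b ≠ c)
    (hsep : Sep r a b c) : η c < η a ∨ η c < η b := by
  by_contra hcon
  push Not at hcon
  have h1 : η a ≠ η c := fun e => hac (h.1 a ha c hc e)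
  have h2 : η b ≠ η c := fun e => hbc (h.1 b hb c hc e)
  exact h.2 a ha b hb c hc har hbr hcr (by omega) (by omega) hsep

variable (hs : s = 1 ∨ s = -1) (h : Rep s T x y) {q r : P} (hq : Top y T q)
  (hη : StartOn r T η)

include hs h hq hη

/-- `z` is removed before the top and before `a`. -/
lemma z_first_left {z a : P} (hr : r ∈ T) (hz : z ∈ T) (ha : a ∈ T) (hyr : y r < y z)
    (hya : y a < y z) (hzq : z ≠ q) (hx1 : x a < x z) (hx2 : x z < x r) :
    η q < η z ∧ η a < η z := by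
  have hq1 := hq.1
  have hzq' := hq.2 z hz hzq
  have hrq : q ≠ r := by rintro rfl; omega
  have haq : a ≠ q := by rintro rfl; omega
  have har : a ≠ r := by rintro rfl; omega
  have haz : a ≠ z := by rintro rfl; omega
  have hzr : z ≠ r := by rintro rfl; omega
  have f1 : Sep r z q a := sep_of' hs
    (h.neg2 hz hq1 hr hzq' (by omega) hx2) (h.pos2 hz hq1 ha hzq' (by omega) hx1)
  have f2 : Sep r z a q := sep_of hs
    (h.pos1 hz ha hr hya hyr (by omega)) (h.neg3 hz ha hq1 hzq' (by omega) hx1)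
  have g1 := hη.first hz hq1 ha hzr hrq har haz.symm haq.symm f1
  have g2 := hη.first hz ha hq1 hzr har hrq hzq haq f2
  omega

/-- Two points above `r`, both on its left: the higher one is further left. -/
lemma rule_left {z w a : P} (hr : r ∈ T) (hz : z ∈ T) (hw : w ∈ T) (ha : a ∈ T)
    (hyr : y r < y w) (hya : y a < y w) (hyw : y w < y z) (hzq : z ≠ q)
    (hx1 : x a < x w) (hx2 : x w < x z) (hx3 : x z < x r) : False := by
  have hq1 := hq.1
  have hzq' := hq.2 z hz hzq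
  have hrq : q ≠ r := by rintro rfl; omega
  have haq : a ≠ q := by rintro rfl; omega
  have har : a ≠ r := by rintro rfl; omega
  have haz : a ≠ z := by rintro rfl; omega
  have haw : a ≠ w := by rintro rfl; omega
  have hzr : z ≠ r := by rintro rfl; omega
  have hwr : w ≠ r := by rintro rfl; omega
  have hwz : w ≠ z := by rintro rfl; omega
  have hwq : w ≠ q := by rintro rfl; omega
  obtain ⟨g1, g2⟩ := z_first_left hs h hq hη hr hz ha (by omega) (by omega) hzq (by omega) hx3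
  obtain ⟨g3, g4⟩ := z_first_left hs h hq hη hr hw ha (by omega) (by omega) hwq (by omega)
    (by omega)
  have f1 : Sep r z q w := sep_of' hs
    (h.neg2 hz hq1 hr hzq' (by omega) hx3) (h.pos2 hz hq1 hw hzq' (by omega) hx2)
  have f2 : Sep r a w z := sep_of' hs
    (h.neg2 ha hw hr hya hyr (by omega)) (h.pos3 ha hw hz (by omega) hyw hx1)
  have g5 := hη.first hz hq1 hw hzr hrq hwr hwz.symm hwq.symm f1
  have g6 := hη.first ha hw hz har hwr hzr haz hwz f2
  omega

/-- A point below `r` with lower points on both sides is removed after the top. -/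
lemma w_last {w a c : P} (hr : r ∈ T) (hw : w ∈ T) (ha : a ∈ T) (hc : c ∈ T)
    (hyr : y w < y r) (hya : y a < y w) (hyc : y c < y w) (hrq : r ≠ q)
    (hx1 : x a < x w) (hx2 : x w < x c) (hx3 : x c < x r) : η w < η q := by
  have hq1 := hq.1
  have hrq' := hq.2 r hr hrq
  have haq : a ≠ q := by rintro rfl; omega
  have har : a ≠ r := by rintro rfl; omega
  have haw : a ≠ w := by rintro rfl; omega
  have hwr : w ≠ r := by rintro rfl; omega
  have hwq : w ≠ q := by rintro rfl; omega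
  have hcq : c ≠ q := by rintro rfl; omega
  have hcr : c ≠ r := by rintro rfl; omega
  have hcw : c ≠ w := by rintro rfl; omega
  have hca : c ≠ a := by rintro rfl; omega
  have f1 : Sep r w c a := sep_of hs
    (h.pos3 hw hc hr hyr (by omega) hx2) (h.neg1 hw hc ha hyc hya (by omega))
  have f2 : Sep r w a c := sep_of' hs
    (h.neg3 hw ha hr hyr (by omega) hx1) (h.pos1 hw ha hc hya hyc (by omega))
  have f3 : Sep r q c w := sep_of hs
    (h.pos1 hq1 hc hr (by omega) hrq' hx3) (h.neg1 hq1 hc hw (by omega) (by omega) hx2)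
  have g1 := hη.first hw hc ha hwr hcr har haw.symm hca f1
  have g2 := hη.first hw ha hc hwr har hcr hcw.symm hca.symm f2
  have g3 := hη.first hq1 hc hw hrq.symm hcr hwr hwq.symm hcw f3
  omega

/-- If some inner point is below `r`, an inner point above `r` on its left is right of it. -/
lemma p2_left {z w a c a' : P} (hr : r ∈ T) (hw : w ∈ T) (ha : a ∈ T) (hc : c ∈ T)
    (hz : z ∈ T) (ha' : a' ∈ T)
    (hyr : y w < y r) (hya : y a < y w) (hyc : y c < y w) (hrq : r ≠ q)
    (hx1 : x a < x w) (hx2 : x w < x c) (hx3 : x c < x r)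
    (hyz : y r < y z) (hzq : z ≠ q) (hya' : y a' < y z) (hx4 : x a' < x z) (hx5 : x z < x r) :
    x w < x z := by
  by_contra hcon
  have hwz : w ≠ z := by rintro rfl; omega
  have hx6 : x z < x w := by
    have := h.xne hw hz hwz
    omega
  have hq1 := hq.1
  have hrq' := hq.2 r hr hrq
  have hzq' := hq.2 z hz hzq
  have hwr : w ≠ r := by rintro rfl; omega
  have hwq : w ≠ q := by rintro rfl; omega
  have hzr : z ≠ r := by rintro rfl; omega
  have g1 := w_last hs h hq hη hr hw ha hc hyr hya hyc hrq hx1 hx2 hx3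
  obtain ⟨g2, -⟩ := z_first_left hs h hq hη hr hz ha' hyz hya' hzq hx4 hx5
  have f1 : Sep r w q z := sep_of' hs
    (h.neg2 hw hq1 hr (by omega) hrq' (by omega)) (h.pos2 hw hq1 hz (by omega) hzq' hx6)
  have g3 := hη.first hw hq1 hz hwr hrq.symm hzr hwz hzq.symm f1
  omega

/-- If some inner point is below `r`, no inner point above `r` is on the right of `r`. -/
lemma p2_right {z w a c c' : P} (hr : r ∈ T) (hRA : ∀ p ∈ T, y p < y r → x p < x r)
    (hw : w ∈ T) (ha : a ∈ T) (hc : c ∈ T)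
    (hz : z ∈ T) (hc' : c' ∈ T)
    (hyr : y w < y r) (hya : y a < y w) (hyc : y c < y w) (hrq : r ≠ q)
    (hx1 : x a < x w) (hx2 : x w < x c)
    (hyz : y r < y z) (hzq : z ≠ q) (hyc' : y c' < y z) (hx4 : x z < x c') (hx5 : x r < x z) :
    False := by
  have hq1 := hq.1
  have hrq' := hq.2 r hr hrq
  have hzq' := hq.2 z hz hzq
  have hwr : w ≠ r := by rintro rfl; omega
  have hwq : w ≠ q := by rintro rfl; omega
  have hzr : z ≠ r := by rintro rfl; omega
  have hwz : w ≠ z := by rintro rfl; omega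
  have hx3 : x c < x r := hRA c hc (by omega)
  have hxw : x w < x r := hRA w hw hyr
  have hc'r : c' ≠ r := by rintro rfl; omega
  have hc'z : c' ≠ z := by rintro rfl; omega
  have hyc'r : y r < y c' := by
    by_contra hcon
    have h1 := h.yne hc' hr hc'r
    have := hRA c' hc' (by omega)
    omega
  have hs' : -s = 1 ∨ -s = -1 := by rcases hs with rfl | rfl <;> simp
  have g1 := w_last hs h hq hη hr hw ha hc hyr hya hyc hrq hx1 hx2 hx3
  obtain ⟨g2, g3⟩ := z_first_left hs' h.mirror hq hη hr hz hc' hyz hyc' hzq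
    (by show - x c' < - x z; omega) (by show - x z < - x r; omega)
  have f1 : Sep r w c' z := sep_of' hs
    (h.neg2 hw hc' hr (by omega) hyc'r hxw) (h.pos3 hw hc' hz (by omega) hyc' (by omega))
  have g4 := hη.first hw hc' hz hwr hc'r hzr hwz hc'z f1
  omega

lemma rule_right {z w c : P} (hr : r ∈ T) (hz : z ∈ T) (hw : w ∈ T) (hc : c ∈ T)
    (hyr : y r < y w) (hyc : y c < y w) (hyw : y w < y z) (hzq : z ≠ q)
    (hx1 : x w < x c) (hx2 : x z < x w) (hx3 : x r < x z) : False := by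
  have hs' : -s = 1 ∨ -s = -1 := by rcases hs with rfl | rfl <;> simp
  exact rule_left hs' h.mirror hq hη hr hz hw hc hyr hyc hyw hzq
    (by show - x c < - x w; omega) (by show - x w < - x z; omega) (by show - x z < - x r; omega)

omit hη in
/-- The final contradiction: three starting points on the right arm. -/
lemma three_starts {r1 r2 r3 m z1 z2 z3 z4 : P} {η1 η2 η3 : P → ℤ}
    (hr1 : r1 ∈ T) (hr2 : r2 ∈ T) (hr3 : r3 ∈ T)
    (hη1 : StartOn r1 T η1) (hη2 : StartOn r2 T η2) (hη3 : StartOn r3 T η3)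
    (hRA1 : ∀ p ∈ T, y p < y r1 → x p < x r1) (hRA2 : ∀ p ∈ T, y p < y r2 → x p < x r2)
    (h1q : r1 ≠ q) (h2q : r2 ≠ q)
    (h12 : y r2 < y r1) (h2m : y m < y r2) (hm3 : y r3 < y m)
    (hz1 : z1 ∈ T) (hz2 : z2 ∈ T) (hz3 : z3 ∈ T) (hz4 : z4 ∈ T)
    (hz1q : z1 ≠ q) (hz2q : z2 ≠ q) (hz3q : z3 ≠ q) (hz4q : z4 ≠ q)
    (hL : ∀ z, z = z1 ∨ z = z2 ∨ z = z3 ∨ z = z4 → ∃ a ∈ T, y a < y z ∧ x a < x z)
    (hR : ∀ z, z = z1 ∨ z = z2 ∨ z = z3 ∨ z = z4 → ∃ a ∈ T, y a < y z ∧ x z < x a)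
    (p1 : y r1 < y z1)
    (p2 : y r2 < y z2) (p2' : y z2 < y r1 ∨ x r2 < x z2)
    (p3' : y z3 < y r2 ∨ x m < x z3) (p3'' : x z3 < x r2)
    (p4 : y r3 < y z4) (p4' : y z4 < y m ∨ x r3 < x z4) (p4'' : x z4 < x m) : False := by
  obtain ⟨a1, ha1, ya1, xa1⟩ := hL z1 (by simp)
  obtain ⟨a2, ha2, ya2, xa2⟩ := hL z2 (by simp)
  obtain ⟨a4, ha4, ya4, xa4⟩ := hL z4 (by simp)
  obtain ⟨c1, hc1, yc1, xc1⟩ := hR z1 (by simp)
  obtain ⟨c2, hc2, yc2, xc2⟩ := hR z2 (by simp)
  obtain ⟨c3, hc3, yc3, xc3⟩ := hR z3 (by simp)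
  have notr2 : ∀ z, z = z1 ∨ z = z2 ∨ z = z3 ∨ z = z4 → z ∈ T → z ≠ r2 := by
    rintro z hz hzT rfl
    obtain ⟨c, hc, yc, xc⟩ := hR z hz
    have := hRA2 c hc yc
    omega
  -- first step: `z3` and `z4` are above `r2`
  have step : ∀ w, w = z3 ∨ w = z4 → w ∈ T → y r2 < y w := by
    intro w hw hwT
    by_contra hcon
    have hw' : w = z1 ∨ w = z2 ∨ w = z3 ∨ w = z4 := by tauto
    have hyw : y w < y r2 := by
      have := h.yne hwT hr2 (notr2 w hw' hwT)
      omega
    obtain ⟨a, ha, ya, xa⟩ := hL w hw'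
    obtain ⟨c, hc, yc, xc⟩ := hR w hw'
    have hxc : x c < x r2 := hRA2 c hc (by omega)
    have e1 : x z1 < x r2 := by
      by_contra hcon1
      have := h.xne hz1 hr2 (notr2 z1 (by simp) hz1)
      exact p2_right hs h hq hη2 hr2 hRA2 hwT ha hc hz1 hc1 hyw ya yc h2q xa xc (by omega) hz1q
        yc1 xc1 (by omega)
    have e2 : x z2 < x r2 := by
      by_contra hcon1
      have := h.xne hz2 hr2 (notr2 z2 (by simp) hz2)
      exact p2_right hs h hq hη2 hr2 hRA2 hwT ha hc hz2 hc2 hyw ya yc h2q xa xc (by omega) hz2q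
        yc2 xc2 (by omega)
    have e3 : y z2 < y r1 := by omega
    have e4 : x z2 < x z1 := by
      have hxc2 : x c2 < x r1 := hRA1 c2 hc2 (by omega)
      have hxr : x r2 < x r1 := hRA1 r2 hr2 h12
      exact p2_left hs h hq hη1 hr1 hz2 ha2 hc2 hz1 ha1 e3 ya2 yc2 h1q xa2 xc2 hxc2 p1 hz1q ya1
        xa1 (by omega)
    exact rule_left hs h hq hη2 hr2 hz1 hz2 ha2 p2 ya2 (by omega) hz1q xa2 e4 e1
  have s3 := step z3 (by simp) hz3
  have s4 := step z4 (by simp) hz4
  have x3 : x m < x z3 := by omega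
  have x4 : x r3 < x z4 := by omega
  have hne : z3 ≠ z4 := by rintro rfl; omega
  have hyne := h.yne hz3 hz4 hne
  by_cases hy : y z4 < y z3
  · exact rule_left hs h hq hη2 hr2 hz3 hz4 ha4 s4 ya4 hy hz3q xa4 (by omega) p3''
  · exact rule_right hs h hq hη3 hr3 hz4 hz3 hc3 (by omega) yc3 (by omega) hz4q xc3 (by omega) x4

end Pool.Agent.Helper69.Str
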